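import Pool.Agent.R963.Opt.Grad

/-!
# Cut-off functions and the localization formula
-/

set_option autoImplicit false

open MeasureTheory Set Filter Topology
open scoped ENNReal

namespace Pool.Agent.R963.Opt

variable {d : ℕ}

lemma memLp_bdd_mul {η u : Sp d → ℝ} {M : ℝ} (hm : Measurable η) (hb : ∀ x, |η x| ≤ M)
    (hu : MemLp u 2 volume) : MemLp (fun x => η x * u x) 2 volume := by
  refine hu.of_le_mul (c := M) (hm.aestronglyMeasurable.mul hu.1) (Eventually.of_forall fun x => ?_)
  rw [norm_mul, Real.norm_eq_abs]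
  exact mul_le_mul_of_nonneg_right (hb x) (norm_nonneg _)

/-- The product rule. -/
lemma WeakGrad.mul {u : Sp d → ℝ} {g : Fin d → Sp d → ℝ} (h : WeakGrad u g) {η : Sp d → ℝ}
    (hη : ContDiff ℝ (⊤ : ℕ∞) η) {M M' : ℝ} (hM : ∀ x, |η x| ≤ M) (hM' : ∀ k x, |pd k η x| ≤ M') :
    WeakGrad (fun x => η x * u x) (fun k x => η x * g k x + pd k η x * u x) := by
  have hm : Measurable η := hη.continuous.measurable
  have hm' : ∀ k, Measurable (pd k η) := fun k => (continuous_pd hη k).measurable
  refine ⟨memLp_bdd_mul hm hM h.memLp, fun k =>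
    (memLp_bdd_mul hm hM (h.memLp_grad k)).add (memLp_bdd_mul (hm' k) (hM' k) h.memLp),
    fun k φ hφ hc => ?_⟩
  have hηφ : ContDiff ℝ (⊤ : ℕ∞) (fun x => η x * φ x) := hη.mul hφ
  have hc' : HasCompactSupport (fun x => η x * φ x) := hc.mul_left
  have h1 := h.weak k _ hηφ hc'
  have hη1 : Differentiable ℝ η := hη.differentiable (by simp)
  have hφ1 : Differentiable ℝ φ := hφ.differentiable (by simp)
  have h2 : ∀ x, fderiv ℝ (fun x => η x * φ x) x (Pi.single k 1) =
      η x * pd k φ x + φ x * pd k η x := by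
    intro x
    rw [fderiv_fun_mul (hη1 x) (hφ1 x)]
    simp [pd]
  simp only [h2] at h1
  have i1 : Integrable (fun x => (η x * u x) * pd k φ x) volume :=
    (memLp_bdd_mul hm hM h.memLp).integrable_mul (memLp_pd hφ hc k)
  have i2 : Integrable (fun x => (pd k η x * u x) * φ x) volume :=
    (memLp_bdd_mul (hm' k) (hM' k) h.memLp).integrable_mul (memLp_test hφ hc)
  have i3 : Integrable (fun x => (η x * g k x) * φ x) volume :=
    (memLp_bdd_mul hm hM (h.memLp_grad k)).integrable_mul (memLp_test hφ hc)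
  have e1 : ∫ x, u x * (η x * pd k φ x + φ x * pd k η x) =
      (∫ x, (η x * u x) * pd k φ x) + ∫ x, (pd k η x * u x) * φ x := by
    rw [← integral_add i1 i2]
    refine integral_congr_ae (Eventually.of_forall fun x => ?_)
    simp only
    ring
  have e2 : ∫ x, g k x * (η x * φ x) = ∫ x, (η x * g k x) * φ x := by
    refine integral_congr_ae (Eventually.of_forall fun x => ?_)
    simp only
    ring
  have e3 : ∫ x, (η x * g k x + pd k η x * u x) * φ x =
      (∫ x, (η x * g k x) * φ x) + ∫ x, (pd k η x * u x) * φ x := by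
    rw [← integral_add i3 i2]
    refine integral_congr_ae (Eventually.of_forall fun x => ?_)
    simp only
    ring
  rw [e1, e2] at h1
  rw [e3]
  change ∫ x, (η x * u x) * pd k φ x = _
  linarith

/-- Multiplication by a bounded function on `L²`. -/
noncomputable def mulL (η : Sp d → ℝ) (hm : Measurable η) (hb : ∀ x, |η x| ≤ 1) :
    Lp ℝ 2 (volume : Measure (Sp d)) →ₗ[ℝ] Lp ℝ 2 (volume : Measure (Sp d)) where
  toFun u := (memLp_bdd_mul hm hb (Lp.memLp u)).toLp (fun x => η x * u x)
  map_add' u v := by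
    refine Lp.ext ?_
    filter_upwards [MemLp.coeFn_toLp (memLp_bdd_mul hm hb (Lp.memLp (u + v))),
      MemLp.coeFn_toLp (memLp_bdd_mul hm hb (Lp.memLp u)),
      MemLp.coeFn_toLp (memLp_bdd_mul hm hb (Lp.memLp v)),
      Lp.coeFn_add u v,
      Lp.coeFn_add ((memLp_bdd_mul hm hb (Lp.memLp u)).toLp (fun x => η x * u x))
        ((memLp_bdd_mul hm hb (Lp.memLp v)).toLp (fun x => η x * v x))] with x h1 h2 h3 h4 h5
    rw [h1, h5, Pi.add_apply, h2, h3, h4, Pi.add_apply, mul_add]
  map_smul' c u := by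
    refine Lp.ext ?_
    filter_upwards [MemLp.coeFn_toLp (memLp_bdd_mul hm hb (Lp.memLp (c • u))),
      MemLp.coeFn_toLp (memLp_bdd_mul hm hb (Lp.memLp u)),
      Lp.coeFn_smul c u,
      Lp.coeFn_smul c ((memLp_bdd_mul hm hb (Lp.memLp u)).toLp (fun x => η x * u x))]
      with x h1 h2 h3 h4
    rw [RingHom.id_apply, h1, h4, Pi.smul_apply, h2, h3, Pi.smul_apply, smul_eq_mul, smul_eq_mul]
    ring

lemma mulL_ae (η : Sp d → ℝ) (hm : Measurable η) (hb : ∀ x, |η x| ≤ 1)
    (u : Lp ℝ 2 (volume : Measure (Sp d))) :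
    (mulL η hm hb u : Sp d → ℝ) =ᵐ[volume] fun x => η x * u x :=
  MemLp.coeFn_toLp (memLp_bdd_mul hm hb (Lp.memLp u))

/-- The square of the euclidean length. -/
noncomputable def rho (x : Sp d) : ℝ := ∑ i, x i ^ 2

lemma rho_nonneg (x : Sp d) : 0 ≤ rho x := Finset.sum_nonneg fun i _ => sq_nonneg _

lemma rho_contDiff : ContDiff ℝ (⊤ : ℕ∞) (rho : Sp d → ℝ) := by
  unfold rho
  fun_prop

lemma rho_fderiv (x : Sp d) (k : Fin d) : fderiv ℝ rho x (Pi.single k 1) = 2 * x k := by
  have h1 : HasFDerivAt (rho : Sp d → ℝ)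
      (∑ i, (2 * x i) • (ContinuousLinearMap.proj i : (Fin d → ℝ) →L[ℝ] ℝ)) x := by
    unfold rho
    have : ∀ i ∈ (Finset.univ : Finset (Fin d)), HasFDerivAt (fun x : Sp d => x i ^ 2)
        ((2 * x i) • (ContinuousLinearMap.proj i : (Fin d → ℝ) →L[ℝ] ℝ)) x := by
      intro i _
      have h2 := (hasFDerivAt_apply (𝕜 := ℝ) i x).pow 2
      refine h2.congr_fderiv ?_
      ext v
      simp
    exact HasFDerivAt.fun_sum this
  rw [h1.fderiv]
  simp [Pi.single_apply]

lemma pd_comp_rho {F : ℝ → ℝ} {F' : ℝ} {x : Sp d} (h : HasDerivAt F F' (rho x)) (k : Fin d) :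
    pd k (fun x => F (rho x)) x = F' * (2 * x k) := by
  have h1 : HasFDerivAt (rho : Sp d → ℝ) (fderiv ℝ rho x) x :=
    ((rho_contDiff (d := d)).differentiable (by simp) x).hasFDerivAt
  have h2 := h.comp_hasFDerivAt x h1
  unfold pd
  rw [show (fun x => F (rho x)) = F ∘ rho from rfl, h2.fderiv]
  simp [rho_fderiv]

/-! ### The transition function -/

lemma exists_transition_bound : ∃ C : ℝ, 0 < C ∧ ∀ y, |deriv Real.smoothTransition y| ≤ C := by
  have hc : Continuous (deriv Real.smoothTransition) := by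
    have h1 : ContDiff ℝ 1 Real.smoothTransition := Real.smoothTransition.contDiff
    exact h1.continuous_deriv (le_refl _)
  obtain ⟨C, hC⟩ := (isCompact_Icc (a := (0:ℝ)) (b := 1)).exists_bound_of_continuousOn
    hc.continuousOn
  refine ⟨max C 1, by positivity, fun y => ?_⟩
  by_cases hy : y ∈ Icc (0:ℝ) 1
  · exact (hC y hy).trans (le_max_left _ _)
  · have h0 : deriv Real.smoothTransition y = 0 := by
      rw [mem_Icc, not_and_or, not_le, not_le] at hy
      rcases hy with hy | hy
      · apply IsLocalMin.deriv_eq_zero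
        refine Eventually.of_forall fun z => ?_
        rw [Real.smoothTransition.zero_of_nonpos hy.le]
        exact Real.smoothTransition.nonneg z
      · apply IsLocalMax.deriv_eq_zero
        refine Eventually.of_forall fun z => ?_
        rw [Real.smoothTransition.one_of_one_le hy.le]
        exact Real.smoothTransition.le_one z
    rw [h0, abs_zero]
    positivity

/-- The bound of the derivative of the transition function. -/
noncomputable def CT : ℝ := exists_transition_bound.choose

lemma CT_pos : 0 < CT := exists_transition_bound.choose_spec.1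

lemma abs_deriv_transition_le (y : ℝ) : |deriv Real.smoothTransition y| ≤ CT :=
  exists_transition_bound.choose_spec.2 y

lemma deriv_transition_eq_zero {y : ℝ} (hy : y ≤ 0 ∨ 1 ≤ y) :
    deriv Real.smoothTransition y = 0 := by
  rcases hy with hy | hy
  · apply IsLocalMin.deriv_eq_zero
    refine Eventually.of_forall fun z => ?_
    rw [Real.smoothTransition.zero_of_nonpos hy]
    exact Real.smoothTransition.nonneg z
  · apply IsLocalMax.deriv_eq_zero
    refine Eventually.of_forall fun z => ?_
    rw [Real.smoothTransition.one_of_one_le hy]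
    exact Real.smoothTransition.le_one z

/-- The angle. -/
noncomputable def ang (s t r : ℝ) : ℝ := Real.pi / 2 * Real.smoothTransition ((r - s) / (t - s))

/-- The derivative of the angle. -/
noncomputable def ang' (s t r : ℝ) : ℝ :=
  Real.pi / 2 * (deriv Real.smoothTransition ((r - s) / (t - s)) / (t - s))

lemma ang_hasDerivAt (s t r : ℝ) : HasDerivAt (ang s t) (ang' s t r) r := by
  have h1 : HasDerivAt (fun r => (r - s) / (t - s)) (1 / (t - s)) r :=
    ((hasDerivAt_id r).sub_const s).div_const (t - s)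
  have h3 : Differentiable ℝ Real.smoothTransition :=
    (Real.smoothTransition.contDiff (n := 1)).differentiable (by simp)
  have h2 : HasDerivAt Real.smoothTransition (deriv Real.smoothTransition ((r - s) / (t - s)))
      ((r - s) / (t - s)) := (h3 _).hasDerivAt
  have h4 := (h2.comp r h1).const_mul (Real.pi / 2)
  unfold ang ang'
  refine h4.congr_deriv ?_
  rw [mul_one_div]

lemma ang_contDiff (s t : ℝ) : ContDiff ℝ (⊤ : ℕ∞) (ang s t) := by
  unfold ang
  exact contDiff_const.mul (Real.smoothTransition.contDiff.comp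
    ((contDiff_id.sub contDiff_const).div_const _))

/-- The inner cut-off function. -/
noncomputable def eta (s t : ℝ) (x : Sp d) : ℝ := Real.cos (ang s t (rho x))

/-- The outer cut-off function. -/
noncomputable def zeta (s t : ℝ) (x : Sp d) : ℝ := Real.sin (ang s t (rho x))

lemma eta_contDiff (s t : ℝ) : ContDiff ℝ (⊤ : ℕ∞) (eta s t : Sp d → ℝ) :=
  Real.contDiff_cos.comp ((ang_contDiff s t).comp rho_contDiff)

lemma zeta_contDiff (s t : ℝ) : ContDiff ℝ (⊤ : ℕ∞) (zeta s t : Sp d → ℝ) :=
  Real.contDiff_sin.comp ((ang_contDiff s t).comp rho_contDiff)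

lemma abs_eta_le (s t : ℝ) (x : Sp d) : |eta s t x| ≤ 1 := Real.abs_cos_le_one _

lemma abs_zeta_le (s t : ℝ) (x : Sp d) : |zeta s t x| ≤ 1 := Real.abs_sin_le_one _

lemma eta_sq_add (s t : ℝ) (x : Sp d) : eta s t x ^ 2 + zeta s t x ^ 2 = 1 :=
  Real.cos_sq_add_sin_sq _

lemma zeta_eq_zero {s t : ℝ} (hst : s < t) {x : Sp d} (hx : rho x ≤ s) : zeta s t x = 0 := by
  unfold zeta ang
  rw [Real.smoothTransition.zero_of_nonpos, mul_zero, Real.sin_zero]
  exact div_nonpos_of_nonpos_of_nonneg (by linarith) (by linarith)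

lemma ang_of_le {s t : ℝ} (hst : s < t) {x : Sp d} (hx : t ≤ rho x) :
    ang s t (rho x) = Real.pi / 2 := by
  unfold ang
  rw [Real.smoothTransition.one_of_one_le, mul_one]
  rw [le_div_iff₀ (by linarith)]
  linarith

lemma zeta_eq_one {s t : ℝ} (hst : s < t) {x : Sp d} (hx : t ≤ rho x) : zeta s t x = 1 := by
  unfold zeta
  rw [ang_of_le hst hx, Real.sin_pi_div_two]

lemma eta_eq_zero {s t : ℝ} (hst : s < t) {x : Sp d} (hx : t ≤ rho x) : eta s t x = 0 := by
  unfold eta
  rw [ang_of_le hst hx, Real.cos_pi_div_two]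

lemma pd_eta (s t : ℝ) (k : Fin d) (x : Sp d) :
    pd k (eta s t) x = -(zeta s t x * (ang' s t (rho x) * (2 * x k))) := by
  have h := (Real.hasDerivAt_cos (ang s t (rho x))).comp (rho x) (ang_hasDerivAt s t (rho x))
  have h2 := pd_comp_rho (F := fun r => Real.cos (ang s t r)) h k
  unfold zeta
  change pd k (fun x => Real.cos (ang s t (rho x))) x = _
  rw [h2]
  ring

lemma pd_zeta (s t : ℝ) (k : Fin d) (x : Sp d) :
    pd k (zeta s t) x = eta s t x * (ang' s t (rho x) * (2 * x k)) := by
  have h := (Real.hasDerivAt_sin (ang s t (rho x))).comp (rho x) (ang_hasDerivAt s t (rho x))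
  have h2 := pd_comp_rho (F := fun r => Real.sin (ang s t r)) h k
  unfold eta
  change pd k (fun x => Real.sin (ang s t (rho x))) x = _
  rw [h2]
  ring

/-- The constant of the localization error. -/
noncomputable def CK : ℝ := Real.pi ^ 2 * CT ^ 2

lemma CK_pos : 0 < CK := by
  unfold CK
  have := CT_pos
  positivity

/-- The pointwise localization error. -/
lemma err_le {s t : ℝ} (hs : 0 ≤ s) (hst : s < t) (x : Sp d) :
    ∑ k, (ang' s t (rho x) * (2 * x k)) ^ 2 ≤ CK * t / (t - s) ^ 2 ∧
      (rho x ≤ s → ∑ k, (ang' s t (rho x) * (2 * x k)) ^ 2 = 0) := by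
  have e1 : ∑ k, (ang' s t (rho x) * (2 * x k)) ^ 2 = ang' s t (rho x) ^ 2 * (4 * rho x) := by
    unfold rho
    rw [Finset.mul_sum, Finset.mul_sum]
    refine Finset.sum_congr rfl fun k _ => ?_
    ring
  have hts : 0 < t - s := by linarith
  have hz : ∀ r, r ≤ s ∨ t ≤ r → ang' s t r = 0 := by
    intro r hr
    unfold ang'
    rw [deriv_transition_eq_zero, zero_div, mul_zero]
    rcases hr with hr | hr
    · left; exact div_nonpos_of_nonpos_of_nonneg (by linarith) hts.le
    · right; rw [le_div_iff₀ hts]; linarith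
  rw [e1]
  refine ⟨?_, fun hx => by rw [hz _ (Or.inl hx)]; ring⟩
  by_cases hx : t ≤ rho x
  · rw [hz _ (Or.inr hx)]
    have := CK_pos
    have ht : 0 < t := by linarith
    have h0 : 0 ≤ CK * t / (t - s) ^ 2 := by positivity
    simpa using h0
  · push Not at hx
    have h1 : ang' s t (rho x) ^ 2 ≤ (Real.pi / 2) ^ 2 * (CT ^ 2 / (t - s) ^ 2) := by
      unfold ang'
      rw [mul_pow, div_pow (deriv Real.smoothTransition _)]
      refine mul_le_mul_of_nonneg_left ?_ (sq_nonneg _)
      refine div_le_div_of_nonneg_right ?_ (sq_nonneg _)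
      rw [← sq_abs]
      exact pow_le_pow_left₀ (abs_nonneg _) (abs_deriv_transition_le _) 2
    have h2 : 4 * rho x ≤ 4 * t := by linarith
    calc ang' s t (rho x) ^ 2 * (4 * rho x)
        ≤ ((Real.pi / 2) ^ 2 * (CT ^ 2 / (t - s) ^ 2)) * (4 * t) :=
          mul_le_mul h1 h2 (by have := rho_nonneg x; positivity) (by positivity)
      _ = CK * t / (t - s) ^ 2 := by
          unfold CK
          ring

lemma abs_pd_le {s t : ℝ} (hs : 0 ≤ s) (hst : s < t) (k : Fin d) (x : Sp d) :
    |pd k (eta s t) x| ≤ √(CK * t / (t - s) ^ 2) ∧ |pd k (zeta s t) x| ≤ √(CK * t / (t - s) ^ 2) := by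
  have h1 := (err_le hs hst x).1
  have h2 : (ang' s t (rho x) * (2 * x k)) ^ 2 ≤ CK * t / (t - s) ^ 2 :=
    le_trans (Finset.single_le_sum (f := fun k => (ang' s t (rho x) * (2 * x k)) ^ 2)
      (fun j _ => sq_nonneg _) (Finset.mem_univ k)) h1
  have h3 : |ang' s t (rho x) * (2 * x k)| ≤ √(CK * t / (t - s) ^ 2) := by
    rw [← Real.sqrt_sq_eq_abs]
    exact Real.sqrt_le_sqrt h2
  constructor
  · rw [pd_eta, abs_neg, abs_mul]
    calc |zeta s t x| * |ang' s t (rho x) * (2 * x k)| ≤ 1 * √(CK * t / (t - s) ^ 2) :=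
          mul_le_mul (abs_zeta_le s t x) h3 (abs_nonneg _) zero_le_one
      _ = _ := one_mul _
  · rw [pd_zeta, abs_mul]
    calc |eta s t x| * |ang' s t (rho x) * (2 * x k)| ≤ 1 * √(CK * t / (t - s) ^ 2) :=
          mul_le_mul (abs_eta_le s t x) h3 (abs_nonneg _) zero_le_one
      _ = _ := one_mul _

lemma measurable_rho : Measurable (rho : Sp d → ℝ) := rho_contDiff.continuous.measurable

/-- The indicator function of the outer region. -/
noncomputable def ind (s : ℝ) (x : Sp d) : ℝ := if s < rho x then 1 else 0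

lemma measurable_ind (s : ℝ) : Measurable (ind s : Sp d → ℝ) :=
  Measurable.ite (measurableSet_lt measurable_const measurable_rho) measurable_const
    measurable_const

lemma abs_ind_le (s : ℝ) (x : Sp d) : |ind s x| ≤ 1 := by
  unfold ind
  split_ifs <;> simp

/-- Inner part. -/
noncomputable def PL (s t : ℝ) : Lp ℝ 2 (volume : Measure (Sp d)) →ₗ[ℝ] Lp ℝ 2 (volume : Measure (Sp d)) :=
  mulL (eta s t) (eta_contDiff s t).continuous.measurable (abs_eta_le s t)

/-- Outer part. -/
noncomputable def ZL (s t : ℝ) : Lp ℝ 2 (volume : Measure (Sp d)) →ₗ[ℝ] Lp ℝ 2 (volume : Measure (Sp d)) :=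
  mulL (zeta s t) (zeta_contDiff s t).continuous.measurable (abs_zeta_le s t)

/-- Restriction to the outer region. -/
noncomputable def YL (s : ℝ) : Lp ℝ 2 (volume : Measure (Sp d)) →ₗ[ℝ] Lp ℝ 2 (volume : Measure (Sp d)) :=
  mulL (ind s) (measurable_ind s) (abs_ind_le s)

lemma enorm_mulL (η : Sp d → ℝ) (hm : Measurable η) (hb : ∀ x, |η x| ≤ 1)
    (u : Lp ℝ 2 (volume : Measure (Sp d))) :
    ENNReal.ofReal (‖mulL η hm hb u‖ ^ 2) = ∫⁻ x, ENNReal.ofReal (η x ^ 2) * ‖u x‖ₑ ^ 2 := by
  rw [← enorm_sq, lp_enorm_sq]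
  refine lintegral_congr_ae ?_
  filter_upwards [mulL_ae η hm hb u] with x hx
  rw [hx, enorm_sq_real, enorm_sq_real, mul_pow, ENNReal.ofReal_mul (sq_nonneg _)]

lemma cutData {V : Sp d → ℝ≥0∞} (hV : AEMeasurable V volume) {s t : ℝ} (hs : 0 ≤ s) (hst : s < t) :
    CutData (qf V) (PL s t) (ZL s t) (YL s) (CK * t / (t - s) ^ 2) where
  K_nonneg := by
    have := CK_pos
    have ht : 0 < t := by linarith
    positivity
  norm_eq := by
    intro u
    have h1 : ENNReal.ofReal (‖PL s t u‖ ^ 2 + ‖ZL s t u‖ ^ 2) = ENNReal.ofReal (‖u‖ ^ 2) := by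
      rw [ENNReal.ofReal_add (sq_nonneg _) (sq_nonneg _)]
      unfold PL ZL
      rw [enorm_mulL, enorm_mulL, ← lintegral_add_left', ← enorm_sq, lp_enorm_sq]
      · refine lintegral_congr fun x => ?_
        rw [← add_mul, ← ENNReal.ofReal_add (sq_nonneg _) (sq_nonneg _), eta_sq_add,
          ENNReal.ofReal_one, one_mul]
      · exact (((eta_contDiff s t).continuous.measurable.pow_const 2).ennreal_ofReal).aemeasurable.mul
          (aemeas_enorm (Lp.memLp u))
    rwa [ENNReal.ofReal_eq_ofReal_iff (by positivity) (by positivity)] at h1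
  norm_le := by
    intro u
    have h1 : ENNReal.ofReal (‖ZL s t u‖ ^ 2) ≤ ENNReal.ofReal (‖YL s u‖ ^ 2) := by
      unfold ZL YL
      rw [enorm_mulL, enorm_mulL]
      refine lintegral_mono fun x => mul_le_mul' (ENNReal.ofReal_le_ofReal ?_) le_rfl
      unfold ind
      split_ifs with h
      · rw [one_pow, ← sq_abs]
        exact pow_le_one₀ (abs_nonneg _) (abs_zeta_le s t x)
      · rw [zeta_eq_zero hst (not_lt.1 h)]
    rwa [ENNReal.ofReal_le_ofReal_iff (by positivity)] at h1
  form_le := by
    intro u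
    unfold qf
    by_cases hf : form V u = ⊤
    · rw [hf, top_add]; exact le_top
    obtain ⟨g, hg, hge⟩ := exists_grad (lt_top_iff_ne_top.2 hf)
    have hP := hg.mul (eta_contDiff s t) (abs_eta_le s t) fun k x => (abs_pd_le hs hst k x).1
    have hZ := hg.mul (zeta_contDiff s t) (abs_zeta_le s t) fun k x => (abs_pd_le hs hst k x).2
    have e1 : form V (PL s t u) = energy V (fun x => eta s t x * u x)
        (fun k x => eta s t x * g k x + pd k (eta s t) x * u x) := by
      rw [← form_eq hP]
      exact form_congr (mulL_ae _ _ _ u)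
    have e2 : form V (ZL s t u) = energy V (fun x => zeta s t x * u x)
        (fun k x => zeta s t x * g k x + pd k (zeta s t) x * u x) := by
      rw [← form_eq hZ]
      exact form_congr (mulL_ae _ _ _ u)
    rw [e1, e2, hge]
    unfold energy YL
    rw [ENNReal.ofReal_mul (by
      have := CK_pos
      have ht : 0 < t := by linarith
      positivity), enorm_mulL, ← lintegral_const_mul' _ _ ENNReal.ofReal_ne_top]
    have hm1 : AEMeasurable (fun x => ∑ i, ‖eta s t x * g i x + pd i (eta s t) x * u x‖ₑ ^ 2)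
        volume := Finset.aemeasurable_fun_sum _ fun i _ => aemeas_enorm (hP.memLp_grad i)
    have hm2 : AEMeasurable (fun x => V x * ‖eta s t x * u x‖ₑ ^ 2) volume :=
      hV.mul (aemeas_enorm hP.memLp)
    have hm3 : AEMeasurable (fun x => ∑ i, ‖g i x‖ₑ ^ 2) volume :=
      Finset.aemeasurable_fun_sum _ fun i _ => aemeas_enorm (hg.memLp_grad i)
    calc (∫⁻ x, ∑ i, ‖eta s t x * g i x + pd i (eta s t) x * u x‖ₑ ^ 2) +
          (∫⁻ x, V x * ‖eta s t x * u x‖ₑ ^ 2) +
          ((∫⁻ x, ∑ i, ‖zeta s t x * g i x + pd i (zeta s t) x * u x‖ₑ ^ 2) +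
          ∫⁻ x, V x * ‖zeta s t x * u x‖ₑ ^ 2)
        = (∫⁻ x, ((∑ i, ‖eta s t x * g i x + pd i (eta s t) x * u x‖ₑ ^ 2) +
            ∑ i, ‖zeta s t x * g i x + pd i (zeta s t) x * u x‖ₑ ^ 2)) +
          ∫⁻ x, (V x * ‖eta s t x * u x‖ₑ ^ 2 + V x * ‖zeta s t x * u x‖ₑ ^ 2) := by
          rw [lintegral_add_left' hm1, lintegral_add_left' hm2]
          ring
      _ ≤ (∫⁻ x, ((∑ i, ‖g i x‖ₑ ^ 2) + ENNReal.ofReal (CK * t / (t - s) ^ 2) *
            (ENNReal.ofReal (ind s x ^ 2) * ‖u x‖ₑ ^ 2))) + ∫⁻ x, V x * ‖u x‖ₑ ^ 2 := by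
          refine add_le_add (lintegral_mono fun x => ?_) (lintegral_mono fun x => ?_)
          · beta_reduce
            simp only [enorm_sq_real]
            rw [← ENNReal.ofReal_sum_of_nonneg fun j _ => sq_nonneg _,
              ← ENNReal.ofReal_sum_of_nonneg fun j _ => sq_nonneg _,
              ← ENNReal.ofReal_sum_of_nonneg fun j _ => sq_nonneg _,
              ← ENNReal.ofReal_mul (sq_nonneg _), ← ENNReal.ofReal_mul (by
                have := CK_pos
                have ht : 0 < t := by linarith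
                positivity),
              ← ENNReal.ofReal_add (Finset.sum_nonneg fun j _ => sq_nonneg _)
                (Finset.sum_nonneg fun j _ => sq_nonneg _),
              ← ENNReal.ofReal_add (Finset.sum_nonneg fun j _ => sq_nonneg _) (by
                have := CK_pos
                have ht : 0 < t := by linarith
                positivity)]
            apply ENNReal.ofReal_le_ofReal
            rw [← Finset.sum_add_distrib]
            have e3 : ∀ i, (eta s t x * g i x + pd i (eta s t) x * u x) ^ 2 +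
                (zeta s t x * g i x + pd i (zeta s t) x * u x) ^ 2 =
                g i x ^ 2 + (ang' s t (rho x) * (2 * x i)) ^ 2 * u x ^ 2 := by
              intro i
              rw [pd_eta, pd_zeta]
              have := eta_sq_add s t x
              linear_combination (g i x ^ 2 + (ang' s t (rho x) * (2 * x i)) ^ 2 * u x ^ 2) * this
            simp only [e3]
            rw [Finset.sum_add_distrib, ← Finset.sum_mul]
            refine add_le_add le_rfl ?_
            obtain ⟨h1, h2⟩ := err_le hs hst x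
            by_cases hx : s < rho x
            · rw [show ind s x = 1 from if_pos hx, one_pow, one_mul]
              exact mul_le_mul_of_nonneg_right h1 (sq_nonneg _)
            · rw [h2 (not_lt.1 hx), show ind s x = 0 from if_neg hx]
              simp
          · beta_reduce
            rw [← mul_add]
            refine mul_le_mul' le_rfl (le_of_eq ?_)
            simp only [enorm_sq_real]
            rw [← ENNReal.ofReal_add (sq_nonneg _) (sq_nonneg _)]
            congr 1
            have := eta_sq_add s t x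
            linear_combination (u x ^ 2) * this
      _ = _ := by
          rw [lintegral_add_left' hm3]
          ring

end Pool.Agent.R963.Opt
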