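import Mathlib

/-!
# Optimal potentials for Schrödinger eigenvalues: definitions

`ℝ^d` is `Fin d → ℝ` with Lebesgue measure `volume`.
-/

set_option autoImplicit false

open MeasureTheory Set Filter Topology
open scoped ENNReal

namespace Pool.Agent.R963.Opt

/-- The space `ℝ^d`. -/
abbrev Sp (d : ℕ) := Fin d → ℝ

/-- `u ∈ H¹(ℝ^d)` with weak gradient `g`: `u` and all `g i` are square integrable and
`∫ u ∂ᵢφ = - ∫ gᵢ φ` for all test functions `φ`. -/
structure WeakGrad {d : ℕ} (u : Sp d → ℝ) (g : Fin d → Sp d → ℝ) : Prop where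
  memLp : MemLp u 2 volume
  memLp_grad : ∀ i, MemLp (g i) 2 volume
  weak : ∀ (i : Fin d) (φ : Sp d → ℝ), ContDiff ℝ (⊤ : ℕ∞) φ → HasCompactSupport φ →
    ∫ x, u x * fderiv ℝ φ x (Pi.single i 1) = - ∫ x, g i x * φ x

/-- `∫ |g|² + ∫ V u²`. -/
noncomputable def energy {d : ℕ} (V : Sp d → ℝ≥0∞) (u : Sp d → ℝ) (g : Fin d → Sp d → ℝ) :
    ℝ≥0∞ :=
  (∫⁻ x, ∑ i, ‖g i x‖ₑ ^ 2) + ∫⁻ x, V x * ‖u x‖ₑ ^ 2

/-- The quadratic form `∫ |∇u|² + ∫ V u²` of `-Δ + V`. It is finite if and only if `u ∈ H¹_V(ℝ^d)`,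
and `+∞` otherwise. -/
noncomputable def form {d : ℕ} (V : Sp d → ℝ≥0∞) (u : Sp d → ℝ) : ℝ≥0∞ :=
  ⨅ (g : Fin d → Sp d → ℝ) (_ : WeakGrad u g), energy V u g

/-- The space `L²(α)` of classes of square integrable real functions. -/
def LTwo (α : Type) [MeasureSpace α] : Type := Lp ℝ 2 (volume : Measure α)

noncomputable instance instLTwoGroup (α : Type) [MeasureSpace α] : AddCommGroup (LTwo α) :=
  inferInstanceAs (AddCommGroup (Lp ℝ 2 (volume : Measure α)))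

noncomputable instance instLTwoModule (α : Type) [MeasureSpace α] : Module ℝ (LTwo α) :=
  inferInstanceAs (Module ℝ (Lp ℝ 2 (volume : Measure α)))

/-- A function representing a class in `L²(α)`. -/
noncomputable def LTwo.fn {α : Type} [MeasureSpace α] (u : LTwo α) : α → ℝ :=
  AEEqFun.cast (Subtype.val (p := fun f => f ∈ Lp ℝ 2 (volume : Measure α)) u)

/-- The space `L²(ℝ^d)`. -/
def L2 (d : ℕ) : Type := LTwo (Sp d)

noncomputable instance instL2Group (d : ℕ) : AddCommGroup (L2 d) := instLTwoGroup (Sp d)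

noncomputable instance instL2Module (d : ℕ) : Module ℝ (L2 d) := instLTwoModule (Sp d)

/-- A function on `ℝ^d` representing a class in `L²(ℝ^d)`. -/
noncomputable def L2.fn {d : ℕ} (u : L2 d) : Sp d → ℝ := LTwo.fn (α := Sp d) u

/-- `∫ u²`. -/
noncomputable def sqNorm {d : ℕ} (u : Sp d → ℝ) : ℝ≥0∞ := ∫⁻ x, ‖u x‖ₑ ^ 2

/-- The `k`-th eigenvalue of `-Δ + V`, given by the min-max formula for the form above: the
infimum over the `k`-dimensional subspaces `W` of `L²(ℝ^d)` of the supremum over `u ∈ W`, `u ≠ 0`,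
of the Rayleigh quotient (which is `+∞` if `u` is not in `H¹_V(ℝ^d)`). -/
noncomputable def lam {d : ℕ} (V : Sp d → ℝ≥0∞) (k : ℕ) : ℝ≥0∞ :=
  ⨅ (W : Submodule ℝ (L2 d)) (_ : Module.finrank ℝ W = k),
    ⨆ (u ∈ W) (_ : u ≠ 0), form V u.fn / sqNorm u.fn

/-- The class `𝒜_p` of Lebesgue measurable potentials `V : ℝ^d → [0, ∞]` with
`∫ V^{-p} ≤ 1`; here `∞^{-p} = 0`. -/
structure InA {d : ℕ} (p : ℝ) (V : Sp d → ℝ≥0∞) : Prop where
  meas : AEMeasurable V volume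
  mass : ∫⁻ x, V x ^ (-p) ≤ 1

/-- `V` is an optimal potential: it minimizes `λ_k` over the class `𝒜_p`. -/
def IsOptimal {d : ℕ} (p : ℝ) (k : ℕ) (V : Sp d → ℝ≥0∞) : Prop :=
  InA p V ∧ ∀ V' : Sp d → ℝ≥0∞, InA p V' → lam V k ≤ lam V' k

end Pool.Agent.R963.Opt
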