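import Pool.Agent.R963.Opt.Cut

/-!
# The minimum is finite
-/

set_option autoImplicit false

open MeasureTheory Set Filter Topology
open scoped ENNReal

namespace Pool.Agent.R963.Opt

variable {d : ℕ}

lemma WeakGrad.smooth {φ : Sp d → ℝ} (hφ : ContDiff ℝ (⊤ : ℕ∞) φ) (hc : HasCompactSupport φ) :
    WeakGrad φ (fun k => pd k φ) := by
  refine ⟨memLp_test hφ hc, fun k => memLp_pd hφ hc k, fun k ψ hψ hψc => ?_⟩
  have hφ1 : Differentiable ℝ φ := hφ.differentiable (by simp)
  have hψ1 : Differentiable ℝ ψ := hψ.differentiable (by simp)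
  exact integral_mul_fderiv_eq_neg_fderiv_mul_of_integrable
    ((memLp_pd hφ hc k).integrable_mul (memLp_test hψ hψc))
    ((memLp_test hφ hc).integrable_mul (memLp_pd hψ hψc k))
    ((memLp_test hφ hc).integrable_mul (memLp_test hψ hψc))
    (fun x _ => hφ1 x) (fun x _ => hψ1 x)

/-- The centres of the bumps. -/
noncomputable def cen (d : ℕ) (j : ℕ) : Sp d := fun _ => 3 * (j : ℝ)

/-- The bumps. -/
noncomputable def bmp (d : ℕ) (j : ℕ) : ContDiffBump (cen d j) := ⟨1 / 2, 1, by norm_num, by norm_num⟩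

lemma bmp_smooth (j : ℕ) : ContDiff ℝ (⊤ : ℕ∞) (bmp d j : Sp d → ℝ) := (bmp d j).contDiff

lemma bmp_compact (j : ℕ) : HasCompactSupport (bmp d j : Sp d → ℝ) := (bmp d j).hasCompactSupport

lemma bmp_mul (hd : 1 ≤ d) {i j : ℕ} (hij : i ≠ j) (x : Sp d) : bmp d i x * bmp d j x = 0 := by
  by_contra h
  have h1 : bmp d i x ≠ 0 := left_ne_zero_of_mul h
  have h2 : bmp d j x ≠ 0 := right_ne_zero_of_mul h
  have h3 : x ∈ Metric.ball (cen d i) 1 := by
    have := (bmp d i).support_eq
    rw [show (1:ℝ) = (bmp d i).rOut from rfl, ← this]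
    exact h1
  have h4 : x ∈ Metric.ball (cen d j) 1 := by
    have := (bmp d j).support_eq
    rw [show (1:ℝ) = (bmp d j).rOut from rfl, ← this]
    exact h2
  rw [Metric.mem_ball] at h3 h4
  have h5 : dist (cen d i) (cen d j) < 2 := by
    have := dist_triangle_left (cen d i) (cen d j) x
    linarith
  let o : Fin d := ⟨0, hd⟩
  have h6 : dist (cen d i o) (cen d j o) ≤ dist (cen d i) (cen d j) := dist_le_pi_dist _ _ o
  have h7 : dist (cen d i o) (cen d j o) = 3 * |(i:ℝ) - j| := by
    unfold cen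
    rw [Real.dist_eq, ← mul_sub, abs_mul]
    norm_num
  have h8 : (1:ℝ) ≤ |(i:ℝ) - j| := by
    have h9 : (1:ℤ) ≤ |(i:ℤ) - j| := by
      apply Int.one_le_abs
      intro h
      apply hij
      omega
    exact_mod_cast h9
  rw [h7] at h6
  linarith

lemma bmp_zero {j k : ℕ} (hjk : j < k) {x : Sp d} (hx : 3 * (k:ℝ) + 1 < ‖x‖) : bmp d j x = 0 := by
  apply (bmp d j).zero_of_le_dist
  have h1 : ‖cen d j‖ ≤ 3 * (j:ℝ) := by
    rw [pi_norm_le_iff_of_nonneg (by positivity)]
    intro i
    unfold cen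
    rw [Real.norm_eq_abs, abs_of_nonneg (by positivity)]
  have h2 : ‖x‖ ≤ dist x (cen d j) + ‖cen d j‖ := by
    rw [dist_eq_norm]
    have := norm_add_le (x - cen d j) (cen d j)
    simpa using this
  have h3 : (j:ℝ) ≤ k := by exact_mod_cast hjk.le
  change (1:ℝ) ≤ _
  linarith

lemma exists_finite (hd : 1 ≤ d) {p : ℝ} (hp : 0 < p) (k : ℕ) :
    ∃ V : Sp d → ℝ≥0∞, InA p V ∧ lam V k < ⊤ := by
  classical
  set R : ℝ := 3 * (k:ℝ) + 1 with hR
  set B : Set (Sp d) := Metric.closedBall 0 R with hB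
  have hBm : MeasurableSet B := Metric.isClosed_closedBall.measurableSet
  have hBt : volume B < ⊤ := measure_closedBall_lt_top
  set vol : ℝ := (volume B).toReal with hvol
  have hvol0 : 0 ≤ vol := ENNReal.toReal_nonneg
  set c : ℝ := (vol + 1) ^ (1 / p) with hc
  have hc0 : 0 < c := by positivity
  have hcp : c ^ p = vol + 1 := by
    rw [hc, ← Real.rpow_mul (by positivity), one_div_mul_cancel hp.ne', Real.rpow_one]
  set V : Sp d → ℝ≥0∞ := fun x => if x ∈ B then ENNReal.ofReal c else ⊤ with hV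
  have hVm : Measurable V := Measurable.ite hBm measurable_const measurable_const
  have hA : InA p V := by
    refine ⟨hVm.aemeasurable, ?_⟩
    have h1 : ∀ x, V x ^ (-p) = B.indicator (fun _ => ENNReal.ofReal ((vol + 1)⁻¹)) x := by
      intro x
      by_cases hx : x ∈ B
      · rw [indicator_of_mem hx, hV]
        simp only [hx, if_true]
        rw [ENNReal.rpow_neg, ENNReal.ofReal_rpow_of_pos hc0, hcp,
          ENNReal.ofReal_inv_of_pos (by positivity)]
      · rw [indicator_of_notMem hx, hV]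
        simp only [hx, if_false]
        rw [ENNReal.top_rpow_of_neg (by linarith)]
    simp only [h1]
    rw [lintegral_indicator hBm, setLIntegral_const]
    have h2 : volume B = ENNReal.ofReal vol := (ENNReal.ofReal_toReal hBt.ne).symm
    rw [h2, ← ENNReal.ofReal_mul (by positivity), ENNReal.ofReal_le_one, inv_mul_le_iff₀ (by positivity)]
    linarith
  refine ⟨V, hA, ?_⟩
  -- the frame
  let w : Fin k → Lp ℝ 2 (volume : Measure (Sp d)) := fun j =>
    (memLp_test (bmp_smooth j) (bmp_compact j)).toLp (bmp d j : Sp d → ℝ)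
  have hwae : ∀ j, (w j : Sp d → ℝ) =ᵐ[volume] bmp d j := fun j => MemLp.coeFn_toLp _
  have hw0 : ∀ j, w j ≠ 0 := by
    intro j h
    have h1 : (bmp d j : Sp d → ℝ) =ᵐ[volume] fun _ => 0 := by
      refine (hwae j).symm.trans ?_
      rw [h]
      exact Lp.coeFn_zero _ _ _
    have h2 := (Continuous.ae_eq_iff_eq volume (bmp_smooth j).continuous continuous_const).1 h1
    have h3 := congrFun h2 (cen d j)
    have h4 : bmp d j (cen d j) = 1 := by
      apply (bmp d j).one_of_mem_closedBall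
      exact Metric.mem_closedBall_self (bmp d j).rIn_pos.le
    rw [h4] at h3
    exact one_ne_zero h3
  have horth : ∀ i j, i ≠ j → inner ℝ (w i) (w j) = (0:ℝ) := by
    intro i j hij
    rw [L2.inner_def]
    have h1 : (fun x => inner ℝ (w i x) (w j x)) =ᵐ[volume] fun _ => (0:ℝ) := by
      filter_upwards [hwae i, hwae j] with x h1 h2
      rw [h1, h2]
      have := bmp_mul hd (fun h => hij (Fin.ext h)) x (i := (i:ℕ)) (j := (j:ℕ))
      simp only [RCLike.inner_apply, conj_trivial]
      rw [mul_comm]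
      exact this
    rw [integral_congr_ae h1, integral_zero]
  let e : Fin k → Lp ℝ 2 (volume : Measure (Sp d)) := fun j => (‖w j‖⁻¹) • w j
  have hnw : ∀ j, 0 < ‖w j‖ := fun j => norm_pos_iff.2 (hw0 j)
  have he : Orthonormal ℝ e := by
    constructor
    · intro j
      change ‖(‖w j‖⁻¹) • w j‖ = 1
      rw [norm_smul, norm_inv, norm_norm, inv_mul_cancel₀ (hnw j).ne']
    · intro i j hij
      change inner ℝ ((‖w i‖⁻¹) • w i) ((‖w j‖⁻¹) • w j) = (0:ℝ)
      rw [inner_smul_left, inner_smul_right, horth i j hij]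
      simp
  have hfin : ∀ j, qf V (e j) < ⊤ := by
    intro j
    change qf V ((‖w j‖⁻¹) • w j) < ⊤
    rw [(qform hA.meas).smul]
    refine ENNReal.mul_lt_top ENNReal.ofReal_lt_top ?_
    unfold qf
    have hs := WeakGrad.smooth (bmp_smooth (d := d) j) (bmp_compact j)
    rw [form_congr (hwae j), form_eq hs]
    unfold energy
    refine ENNReal.add_lt_top.2 ⟨?_, ?_⟩
    · rw [lintegral_finsetSum' _ fun i _ => aemeas_enorm (hs.memLp_grad i)]
      refine ENNReal.sum_lt_top.2 fun i _ => ?_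
      have h1 := (hs.memLp_grad i).toLp (pd i (bmp d j : Sp d → ℝ))
      have h2 := lp_enorm_sq ((hs.memLp_grad i).toLp (pd i (bmp d j : Sp d → ℝ)))
      have h3 : ∫⁻ x, ‖((hs.memLp_grad i).toLp (pd i (bmp d j : Sp d → ℝ))) x‖ₑ ^ 2 =
          ∫⁻ x, ‖pd i (bmp d j : Sp d → ℝ) x‖ₑ ^ 2 := by
        refine lintegral_congr_ae ?_
        filter_upwards [MemLp.coeFn_toLp (hs.memLp_grad i)] with x hx
        rw [hx]
      rw [← h3, ← h2, enorm_sq]
      exact ENNReal.ofReal_lt_top
    · have h1 : ∫⁻ x, V x * ‖bmp d j x‖ₑ ^ 2 = ENNReal.ofReal c * ∫⁻ x, ‖bmp d j x‖ₑ ^ 2 := by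
        rw [← lintegral_const_mul' _ _ ENNReal.ofReal_ne_top]
        refine lintegral_congr fun x => ?_
        by_cases hx : x ∈ B
        · rw [hV]
          simp only [hx, if_true]
        · have h2 : bmp d j x = 0 := by
            refine bmp_zero j.2 ?_
            rw [hB, Metric.mem_closedBall, dist_zero_right, not_le] at hx
            exact hx
          rw [h2]
          simp
      rw [h1]
      refine ENNReal.mul_lt_top ENNReal.ofReal_lt_top ?_
      have h3 : ∫⁻ x, ‖w j x‖ₑ ^ 2 = ∫⁻ x, ‖bmp d j x‖ₑ ^ 2 := by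
        refine lintegral_congr_ae ?_
        filter_upwards [hwae j] with x hx
        rw [hx]
      rw [← h3, ← lp_enorm_sq, enorm_sq]
      exact ENNReal.ofReal_lt_top
  rw [lam_eq]
  refine lt_of_le_of_lt (lamq_le (Λ := ∑ j, qf V (e j)) e he.linearIndependent fun c => ?_)
    (ENNReal.sum_lt_top.2 fun j _ => hfin j)
  have h1 : ‖∑ j, c j • e j‖ₑ ^ 2 = ENNReal.ofReal (∑ j, c j ^ 2) := by
    rw [enorm_sq]
    congr 1
    have h3 := he.inner_sum c c Finset.univ
    rw [real_inner_self_eq_norm_sq] at h3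
    rw [h3]
    refine Finset.sum_congr rfl fun i _ => ?_
    simp [sq]
  rw [h1, mul_comm]
  exact (qform hA.meas).cs c e

end Pool.Agent.R963.Opt
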