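import Mathlib

/-!
# Near-minimal frames of a quadratic form (abstract part)
-/

set_option autoImplicit false

open MeasureTheory Set Filter Topology
open scoped ENNReal RealInnerProductSpace

namespace Pool.Agent.R963.Opt

variable {H : Type*} [NormedAddCommGroup H] [InnerProductSpace ℝ H]

/-- The properties of a closed quadratic form which are used. -/
structure QForm (q : H → ℝ≥0∞) : Prop where
  smul : ∀ (c : ℝ) (u : H), q (c • u) = ENNReal.ofReal (c ^ 2) * q u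
  cs : ∀ {k : ℕ} (c : Fin k → ℝ) (v : Fin k → H),
    q (∑ j, c j • v j) ≤ ENNReal.ofReal (∑ j, c j ^ 2) * ∑ j, q (v j)
  rot : ∀ {k : ℕ} (U : Fin k → Fin k → ℝ),
    (∀ j l, ∑ i, U i j * U i l = if j = l then 1 else 0) → ∀ v : Fin k → H,
    ∑ i, q (∑ j, U i j • v j) ≤ ∑ j, q (v j)

/-- The min-max values of `q`. -/
noncomputable def lamq (q : H → ℝ≥0∞) (k : ℕ) : ℝ≥0∞ :=
  ⨅ (W : Submodule ℝ H) (_ : Module.finrank ℝ W = k), ⨆ (u ∈ W) (_ : u ≠ 0), q u / ‖u‖ₑ ^ 2

/-- Expanding frames. -/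
def Expanding {k : ℕ} (v : Fin k → H) : Prop :=
  ∀ c : Fin k → ℝ, ∑ j, c j ^ 2 ≤ ‖∑ j, c j • v j‖ ^ 2

/-- The minimal trace over the expanding frames. -/
noncomputable def trq (q : H → ℝ≥0∞) (k : ℕ) : ℝ≥0∞ :=
  ⨅ (v : Fin k → H) (_ : Expanding v), ∑ j, q (v j)

omit [InnerProductSpace ℝ H] in
lemma enorm_sq (u : H) : ‖u‖ₑ ^ 2 = ENNReal.ofReal (‖u‖ ^ 2) := by
  rw [← ofReal_norm, ENNReal.ofReal_pow (norm_nonneg _)]

variable {q : H → ℝ≥0∞}

lemma QForm.zero (hq : QForm q) : q 0 = 0 := by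
  have := hq.smul 0 0
  simpa using this

lemma exists_of_lamq_lt {k : ℕ} {Λ : ℝ≥0∞} (hq : QForm q) (h : lamq q k < Λ) :
    ∃ W : Submodule ℝ H, Module.finrank ℝ W = k ∧ ∀ u ∈ W, q u ≤ Λ * ‖u‖ₑ ^ 2 := by
  unfold lamq at h
  simp only [iInf_lt_iff] at h
  obtain ⟨W, hW, hlt⟩ := h
  refine ⟨W, hW, fun u hu => ?_⟩
  by_cases h0 : u = 0
  · rw [h0, hq.zero]; exact zero_le
  · have h1 : q u / ‖u‖ₑ ^ 2 ≤ Λ := by
      refine le_trans ?_ hlt.le
      exact le_iSup_of_le u (le_iSup_of_le hu (le_iSup_of_le h0 le_rfl))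
    have h2 : ‖u‖ₑ ^ 2 ≠ 0 := by
      rw [enorm_sq]
      have : 0 < ‖u‖ ^ 2 := by have := norm_pos_iff.2 h0; positivity
      exact (ENNReal.ofReal_pos.2 this).ne'
    have h3 : ‖u‖ₑ ^ 2 ≠ ⊤ := by rw [enorm_sq]; exact ENNReal.ofReal_ne_top
    rwa [ENNReal.div_le_iff h2 h3] at h1

lemma lamq_le {k : ℕ} {Λ : ℝ≥0∞} (v : Fin k → H) (hv : LinearIndependent ℝ v)
    (h : ∀ c : Fin k → ℝ, q (∑ j, c j • v j) ≤ Λ * ‖∑ j, c j • v j‖ₑ ^ 2) : lamq q k ≤ Λ := by
  unfold lamq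
  refine iInf_le_of_le (Submodule.span ℝ (range v)) (iInf_le_of_le ?_ ?_)
  · rw [finrank_span_eq_card hv, Fintype.card_fin]
  · refine iSup_le fun u => iSup_le fun hu => iSup_le fun h0 => ?_
    obtain ⟨c, rfl⟩ := (Submodule.mem_span_range_iff_exists_fun ℝ).1 hu
    exact ENNReal.div_le_of_le_mul (h c)

lemma Expanding.linearIndependent {k : ℕ} {v : Fin k → H} {r : ℝ} (hr : 0 < r)
    (h : ∀ c : Fin k → ℝ, r * ∑ j, c j ^ 2 ≤ ‖∑ j, c j • v j‖ ^ 2) : LinearIndependent ℝ v := by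
  rw [Fintype.linearIndependent_iff]
  intro c hc i
  have h1 := h c
  rw [hc, norm_zero, zero_pow (by norm_num)] at h1
  have h2 : ∑ j, c j ^ 2 ≤ 0 := by
    by_contra h3
    push Not at h3
    nlinarith [mul_pos hr h3]
  have h3 : c i ^ 2 ≤ ∑ j, c j ^ 2 :=
    Finset.single_le_sum (f := fun j => c j ^ 2) (fun j _ => sq_nonneg _) (Finset.mem_univ i)
  have h4 : c i ^ 2 = 0 := le_antisymm (h3.trans h2) (sq_nonneg _)
  exact pow_eq_zero_iff (two_ne_zero) |>.1 h4

/-- The minimal trace is finite. -/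
lemma trq_lt_top {k : ℕ} (hq : QForm q) (h : lamq q k < ⊤) (hk : 1 ≤ k) : trq q k < ⊤ := by
  obtain ⟨Λ, hΛ, hΛ'⟩ := exists_between h
  obtain ⟨W, hW, hb⟩ := exists_of_lamq_lt hq hΛ
  have hfin : FiniteDimensional ℝ W := FiniteDimensional.of_finrank_pos (by omega)
  let b : OrthonormalBasis (Fin k) ℝ W := (stdOrthonormalBasis ℝ W).reindex (finCongr hW)
  have hbo : Orthonormal ℝ (fun i => (b i : H)) := by
    have := b.orthonormal
    rw [orthonormal_iff_ite] at this ⊢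
    intro i j
    exact this i j
  have hexp : Expanding (fun i => (b i : H)) := by
    intro c
    have h1 := hbo.inner_sum c c Finset.univ
    rw [real_inner_self_eq_norm_sq] at h1
    rw [h1]
    refine le_of_eq (Finset.sum_congr rfl fun i _ => ?_)
    simp [sq]
  unfold trq
  refine lt_of_le_of_lt (iInf_le_of_le _ (iInf_le_of_le hexp le_rfl)) ?_
  refine ENNReal.sum_lt_top.2 fun j _ => ?_
  refine lt_of_le_of_lt (hb _ (b j).2) ?_
  refine ENNReal.mul_lt_top hΛ' ?_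
  rw [enorm_sq]; exact ENNReal.ofReal_lt_top

/-- On a near-minimal expanding frame the form is at most `lam + 2 ε`. -/
lemma near_min {k : ℕ} (hq : QForm q) {ε : ℝ≥0∞} (hε : ε ≠ 0) (hεt : ε ≠ ⊤)
    (hl : lamq q k < ⊤) {v : Fin k → H} (hv : Expanding v) (hk : 1 ≤ k)
    (ht : ∑ j, q (v j) ≤ trq q k + ε) (c : Fin k → ℝ) :
    q (∑ j, c j • v j) ≤ (lamq q k + 2 * ε) * ENNReal.ofReal (∑ j, c j ^ 2) := by
  classical
  have htr := trq_lt_top hq hl hk
  -- reduce to unit vectors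
  suffices hunit : ∀ c : Fin k → ℝ, ∑ j, c j ^ 2 = 1 →
      q (∑ j, c j • v j) ≤ lamq q k + 2 * ε by
    rcases (Finset.sum_nonneg fun j (_ : j ∈ Finset.univ) => sq_nonneg (c j)).eq_or_lt with h0 | h0
    · have h1 : ∀ j, c j = 0 := by
        intro j
        have := (Finset.sum_eq_zero_iff_of_nonneg fun j _ => sq_nonneg (c j)).1 h0.symm j
          (Finset.mem_univ j)
        exact pow_eq_zero_iff (two_ne_zero) |>.1 this
      simp only [h1, zero_smul, Finset.sum_const_zero, hq.zero]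
      exact zero_le
    · set s : ℝ := ∑ j, c j ^ 2 with hs
      set r : ℝ := √s with hr
      have hr2 : r ^ 2 = s := Real.sq_sqrt h0.le
      have hr0 : 0 < r := Real.sqrt_pos.2 h0
      have h1 := hunit (fun j => c j / r) (by
        simp only [div_pow]
        rw [← Finset.sum_div, ← hs, hr2, div_self h0.ne'])
      have h2 : ∑ j, c j • v j = r • ∑ j, (c j / r) • v j := by
        rw [Finset.smul_sum]
        refine Finset.sum_congr rfl fun j _ => ?_
        rw [smul_smul, mul_div_cancel₀ _ hr0.ne']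
      rw [h2, hq.smul, hr2, mul_comm]
      exact mul_le_mul' h1 le_rfl
  intro c hc
  -- an orthogonal matrix with the row `c`
  let i₀ : Fin k := ⟨0, hk⟩
  let cE : EuclideanSpace ℝ (Fin k) := WithLp.toLp 2 c
  have hcE : ‖cE‖ = 1 := by
    rw [EuclideanSpace.norm_eq]
    simp only [Real.norm_eq_abs, sq_abs]
    rw [show (∑ i, cE i ^ 2) = ∑ j, c j ^ 2 from rfl, hc, Real.sqrt_one]
  obtain ⟨b, hb⟩ := Orthonormal.exists_orthonormalBasis_extension_of_card_eq
    (𝕜 := ℝ) (E := EuclideanSpace ℝ (Fin k)) (ι := Fin k) (by simp)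
    (v := fun _ => cE) (s := {i₀}) (by
      rw [orthonormal_iff_ite]
      rintro ⟨i, hi⟩ ⟨j, hj⟩
      rw [mem_singleton_iff] at hi hj
      subst hi
      subst hj
      simp [hcE])
  have hbi : b i₀ = cE := hb i₀ (mem_singleton _)
  set U : Fin k → Fin k → ℝ := fun i j => b i j with hU
  have hcol : ∀ j l, ∑ i, U i j * U i l = if j = l then 1 else 0 := by
    intro j l
    have h1 := b.sum_inner_mul_inner (EuclideanSpace.single j (1 : ℝ)) (EuclideanSpace.single l (1:ℝ))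
    simp only [EuclideanSpace.inner_single_left, EuclideanSpace.inner_single_right, map_one,
      one_mul, conj_trivial] at h1
    rw [show (∑ i, U i j * U i l) = ∑ i, (b i) j * (b i) l from rfl, h1]
    by_cases h : j = l
    · subst h; simp
    · simp [h]
  set v' : Fin k → H := fun i => ∑ j, U i j • v j with hv'
  have hcomb : ∀ c' : Fin k → ℝ, ∑ i, c' i • v' i = ∑ j, (∑ i, c' i * U i j) • v j := by
    intro c'
    simp only [hv', Finset.smul_sum, smul_smul]
    rw [Finset.sum_comm]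
    simp only [Finset.sum_smul]
  have hrow : ∀ c' : Fin k → ℝ, ∑ j, (∑ i, c' i * U i j) ^ 2 = ∑ i, c' i ^ 2 := by
    intro c'
    have h1 : ∀ j, ∑ i, c' i * U i j = (∑ i, c' i • b i : EuclideanSpace ℝ (Fin k)) j := by
      intro j
      simp [hU]
    have h2 : ‖(∑ i, c' i • b i : EuclideanSpace ℝ (Fin k))‖ ^ 2 = ∑ i, c' i ^ 2 := by
      have h3 := b.orthonormal.inner_sum c' c' Finset.univ
      rw [real_inner_self_eq_norm_sq] at h3
      rw [h3]
      refine Finset.sum_congr rfl fun i _ => ?_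
      simp [sq]
    rw [← h2, EuclideanSpace.norm_sq_eq]
    refine Finset.sum_congr rfl fun j _ => ?_
    rw [h1 j, Real.norm_eq_abs, sq_abs]
  have hexp' : Expanding v' := by
    intro c'
    rw [hcomb, ← hrow c']
    exact hv _
  have hvi : v' i₀ = ∑ j, c j • v j := by
    simp only [hv', hU, hbi]
    rfl
  rw [← hvi]
  have ht' : ∑ i, q (v' i) ≤ trq q k + ε := (hq.rot U hcol v).trans ht
  -- the trial vector
  obtain ⟨W, hW, hWb⟩ := exists_of_lamq_lt (Λ := lamq q k + ε) hq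
    (ENNReal.lt_add_right hl.ne hε)
  have hfin : FiniteDimensional ℝ W := FiniteDimensional.of_finrank_pos (by omega)
  let T : W →ₗ[ℝ] ({i : Fin k // i ≠ i₀} → ℝ) :=
    { toFun := fun w i => inner ℝ (v' i) (w : H)
      map_add' := fun a b => by
        funext j
        simp [inner_add_right]
      map_smul' := fun c a => by
        funext j
        simp [inner_smul_right] }
  have hker : LinearMap.ker T ≠ ⊥ := by
    refine LinearMap.ker_ne_bot_of_finrank_lt ?_
    rw [hW, Module.finrank_fintype_fun_eq_card, Fintype.card_subtype_compl]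
    simp
    omega
  obtain ⟨w, hwT, hw0⟩ := (Submodule.ne_bot_iff _).1 hker
  have hwT' : T w = 0 := hwT
  have hw0' : (w : H) ≠ 0 := fun h => hw0 (Subtype.ext h)
  have hpos : 0 < ‖(w : H)‖ := norm_pos_iff.2 hw0'
  set f : H := (‖(w : H)‖⁻¹) • (w : H) with hf
  have hfW : f ∈ W := W.smul_mem _ w.2
  have hfn : ‖f‖ = 1 := by
    rw [hf, norm_smul, norm_inv, norm_norm, inv_mul_cancel₀ hpos.ne']
  have horth : ∀ i, i ≠ i₀ → inner ℝ (v' i) f = 0 := by
    intro i hi
    have h1 := congrFun hwT' ⟨i, hi⟩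
    have h2 : inner ℝ (v' i) (w : H) = 0 := h1
    rw [hf, inner_smul_right, h2, mul_zero]
  have hqf : q f ≤ lamq q k + ε := by
    have := hWb f hfW
    rwa [enorm_sq, hfn, one_pow, ENNReal.ofReal_one, mul_one] at this
  set v'' : Fin k → H := Function.update v' i₀ f with hv''
  have hexp'' : Expanding v'' := by
    intro c'
    have hs : ∑ j, c' j • v'' j = (∑ j, (Function.update c' i₀ 0 j) • v' j) + c' i₀ • f := by
      rw [← Finset.sum_erase_add _ _ (Finset.mem_univ i₀),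
        ← Finset.sum_erase_add Finset.univ (fun j => Function.update c' i₀ 0 j • v' j)
          (Finset.mem_univ i₀)]
      simp only [Function.update_self, zero_smul, add_zero, hv'']
      congr 1
      refine Finset.sum_congr rfl fun j hj => ?_
      have hj' : j ≠ i₀ := Finset.ne_of_mem_erase hj
      rw [Function.update_of_ne hj', Function.update_of_ne hj']
    have hs2 : ∑ j, c' j ^ 2 = (∑ j, (Function.update c' i₀ 0 j) ^ 2) + c' i₀ ^ 2 := by
      rw [← Finset.sum_erase_add _ _ (Finset.mem_univ i₀),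
        ← Finset.sum_erase_add Finset.univ (fun j => Function.update c' i₀ 0 j ^ 2)
          (Finset.mem_univ i₀)]
      simp only [Function.update_self, ne_eq, OfNat.ofNat_ne_zero, not_false_eq_true, zero_pow,
        add_zero]
      congr 1
      refine Finset.sum_congr rfl fun j hj => ?_
      have hj' : j ≠ i₀ := Finset.ne_of_mem_erase hj
      rw [Function.update_of_ne hj']
    have hin : inner ℝ (∑ j, (Function.update c' i₀ 0 j) • v' j) (c' i₀ • f) = (0:ℝ) := by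
      rw [sum_inner]
      refine Finset.sum_eq_zero fun j _ => ?_
      by_cases hj : j = i₀
      · subst hj; simp
      · rw [inner_smul_left, inner_smul_right, horth j hj]; simp
    rw [hs, hs2, norm_add_sq_real, hin, norm_smul, hfn, mul_one, Real.norm_eq_abs, sq_abs]
    have := hexp' (Function.update c' i₀ 0)
    linarith
  have hle : trq q k ≤ ∑ j, q (v'' j) := iInf_le_of_le _ (iInf_le_of_le hexp'' le_rfl)
  have hsum'' : ∑ j, q (v'' j) = (∑ j ∈ Finset.univ.erase i₀, q (v' j)) + q f := by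
    rw [← Finset.sum_erase_add _ _ (Finset.mem_univ i₀), hv'', Function.update_self]
    congr 1
    refine Finset.sum_congr rfl fun j hj => ?_
    rw [Function.update_of_ne (Finset.ne_of_mem_erase hj)]
  have hsum' : ∑ j, q (v' j) = (∑ j ∈ Finset.univ.erase i₀, q (v' j)) + q (v' i₀) :=
    (Finset.sum_erase_add _ _ (Finset.mem_univ i₀)).symm
  set A := ∑ j ∈ Finset.univ.erase i₀, q (v' j) with hA
  have hAt : A ≠ ⊤ := by
    have h1 : A ≤ trq q k + ε := le_trans (by rw [hsum']; exact le_self_add) ht'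
    exact ne_top_of_le_ne_top (ENNReal.add_ne_top.2 ⟨htr.ne, hεt⟩) h1
  have hfinal : A + q (v' i₀) ≤ A + (q f + ε) := by
    rw [← hsum', ← add_assoc, ← hsum'']
    exact ht'.trans (add_le_add hle le_rfl)
  rw [ENNReal.add_le_add_iff_left hAt] at hfinal
  refine hfinal.trans ?_
  calc q f + ε ≤ (lamq q k + ε) + ε := add_le_add hqf le_rfl
    _ = lamq q k + 2 * ε := by ring

/-- Cut-off data: `P` and `Z` are multiplications by `η` and `ζ`, `Y` is the restriction to the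
region where `ζ ≠ 0`. -/
structure CutData (q : H → ℝ≥0∞) (P Z Y : H →ₗ[ℝ] H) (K : ℝ) : Prop where
  K_nonneg : 0 ≤ K
  norm_eq : ∀ u, ‖P u‖ ^ 2 + ‖Z u‖ ^ 2 = ‖u‖ ^ 2
  norm_le : ∀ u, ‖Z u‖ ^ 2 ≤ ‖Y u‖ ^ 2
  form_le : ∀ u, q (P u) + q (Z u) ≤ q u + ENNReal.ofReal (K * ‖Y u‖ ^ 2)

lemma norm_sum_sq_le {k : ℕ} (Y : H →ₗ[ℝ] H) (c : Fin k → ℝ) (v : Fin k → H) :
    ‖Y (∑ j, c j • v j)‖ ^ 2 ≤ (∑ j, c j ^ 2) * ∑ j, ‖Y (v j)‖ ^ 2 := by
  rw [map_sum]
  simp only [map_smul]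
  have h1 : ‖∑ j, c j • Y (v j)‖ ≤ ∑ j, |c j| * ‖Y (v j)‖ := by
    refine (norm_sum_le _ _).trans (le_of_eq ?_)
    simp only [norm_smul, Real.norm_eq_abs]
  have h2 : (∑ j, |c j| * ‖Y (v j)‖) ^ 2 ≤ (∑ j, |c j| ^ 2) * ∑ j, ‖Y (v j)‖ ^ 2 :=
    Finset.sum_mul_sq_le_sq_mul_sq _ _ _
  simp only [sq_abs] at h2
  exact (pow_le_pow_left₀ (norm_nonneg _) h1 2).trans h2

/-- The cut frame is still nearly expanding. -/
lemma CutData.expanding {P Z Y : H →ₗ[ℝ] H} {K : ℝ} (hc : CutData q P Z Y K) {k : ℕ}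
    {v : Fin k → H} (hv : Expanding v) (c : Fin k → ℝ) :
    (1 - ∑ j, ‖Y (v j)‖ ^ 2) * ∑ j, c j ^ 2 ≤ ‖∑ j, c j • P (v j)‖ ^ 2 := by
  have h1 : ∑ j, c j • P (v j) = P (∑ j, c j • v j) := by simp [map_sum]
  rw [h1]
  have h2 := hc.norm_eq (∑ j, c j • v j)
  have h3 := hc.norm_le (∑ j, c j • v j)
  have h4 := norm_sum_sq_le Y c v
  have h5 := hv c
  nlinarith

/-- **The energy of the outer part.** -/
lemma CutData.outer {P Z Y : H →ₗ[ℝ] H} {K : ℝ} (hc : CutData q P Z Y K) (hq : QForm q) {k : ℕ}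
    {ε : ℝ} (hε : 0 ≤ ε) {v : Fin k → H} (hv : Expanding v) (htr : trq q k < ⊤)
    (ht : ∑ j, q (v j) ≤ trq q k + ENNReal.ofReal ε) (ha : ∑ j, ‖Y (v j)‖ ^ 2 < 1) :
    ∑ j, q (Z (v j)) ≤
      ENNReal.ofReal (ε + (K + (trq q k).toReal) * ∑ j, ‖Y (v j)‖ ^ 2) := by
  set α : ℝ := ∑ j, ‖Y (v j)‖ ^ 2 with hα
  set S : ℝ := (trq q k).toReal with hS
  have hSe : trq q k = ENNReal.ofReal S := (ENNReal.ofReal_toReal htr.ne).symm
  have hS0 : 0 ≤ S := ENNReal.toReal_nonneg
  have hα0 : 0 ≤ α := Finset.sum_nonneg fun j _ => sq_nonneg _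
  have hK := hc.K_nonneg
  have hsum : ∑ j, q (P (v j)) + ∑ j, q (Z (v j)) ≤ ENNReal.ofReal (S + ε + K * α) := by
    rw [← Finset.sum_add_distrib]
    calc ∑ j, (q (P (v j)) + q (Z (v j)))
        ≤ ∑ j, (q (v j) + ENNReal.ofReal (K * ‖Y (v j)‖ ^ 2)) :=
          Finset.sum_le_sum fun j _ => hc.form_le (v j)
      _ = ∑ j, q (v j) + ENNReal.ofReal (K * α) := by
          rw [Finset.sum_add_distrib, hα, Finset.mul_sum,
            ENNReal.ofReal_sum_of_nonneg fun j _ => by positivity]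
      _ ≤ (ENNReal.ofReal S + ENNReal.ofReal ε) + ENNReal.ofReal (K * α) := by
          rw [hSe] at ht
          exact add_le_add ht le_rfl
      _ = ENNReal.ofReal (S + ε + K * α) := by
          rw [← ENNReal.ofReal_add hS0 hε, ← ENNReal.ofReal_add (by positivity) (by positivity)]
  -- the rescaled cut frame
  have h1α : 0 < 1 - α := by linarith
  set r : ℝ := (√(1 - α))⁻¹ with hr
  have hr2 : r ^ 2 = (1 - α)⁻¹ := by rw [hr, inv_pow, Real.sq_sqrt h1α.le]
  have hexp : Expanding fun j => r • P (v j) := by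
    intro c
    have h1 : ∑ j, c j • r • P (v j) = r • ∑ j, c j • P (v j) := by
      rw [Finset.smul_sum]
      refine Finset.sum_congr rfl fun j _ => ?_
      rw [smul_comm]
    rw [h1, norm_smul, mul_pow, Real.norm_eq_abs, sq_abs, hr2]
    have h2 := hc.expanding hv c
    rw [← hα] at h2
    rw [← div_eq_inv_mul, le_div_iff₀ h1α]
    linarith
  have hle : trq q k ≤ ∑ j, q (r • P (v j)) := iInf_le_of_le _ (iInf_le_of_le hexp le_rfl)
  have hle2 : ENNReal.ofReal S ≤ ENNReal.ofReal (1 - α)⁻¹ * ∑ j, q (P (v j)) := by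
    rw [← hSe, Finset.mul_sum]
    refine hle.trans (le_of_eq (Finset.sum_congr rfl fun j _ => ?_))
    rw [hq.smul, hr2]
  -- convert to real numbers
  have hft : ENNReal.ofReal (S + ε + K * α) ≠ ⊤ := ENNReal.ofReal_ne_top
  have hPt : ∑ j, q (P (v j)) ≠ ⊤ := ne_top_of_le_ne_top hft (le_self_add.trans hsum)
  have hZt : ∑ j, q (Z (v j)) ≠ ⊤ := ne_top_of_le_ne_top hft (le_add_self.trans hsum)
  set p := (∑ j, q (P (v j))).toReal with hp
  set z := (∑ j, q (Z (v j))).toReal with hz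
  have hpe : ∑ j, q (P (v j)) = ENNReal.ofReal p := (ENNReal.ofReal_toReal hPt).symm
  have hze : ∑ j, q (Z (v j)) = ENNReal.ofReal z := (ENNReal.ofReal_toReal hZt).symm
  have hp0 : 0 ≤ p := ENNReal.toReal_nonneg
  have hz0 : 0 ≤ z := ENNReal.toReal_nonneg
  rw [hpe, hze, ← ENNReal.ofReal_add hp0 hz0, ENNReal.ofReal_le_ofReal_iff (by positivity)] at hsum
  rw [hpe, ← ENNReal.ofReal_mul (by positivity), ENNReal.ofReal_le_ofReal_iff (by positivity),
    ← div_eq_inv_mul, le_div_iff₀ h1α] at hle2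
  rw [hze]
  apply ENNReal.ofReal_le_ofReal
  nlinarith

/-- **The Rayleigh quotient of the inner part.** -/
lemma CutData.inner {P Z Y : H →ₗ[ℝ] H} {K : ℝ} (hc : CutData q P Z Y K) (hq : QForm q) {k : ℕ}
    (hk : 1 ≤ k) {ε : ℝ} (hε : 0 < ε) {v : Fin k → H} (hv : Expanding v) (hl : lamq q k < ⊤)
    (ht : ∑ j, q (v j) ≤ trq q k + ENNReal.ofReal ε) (ha : ∑ j, ‖Y (v j)‖ ^ 2 < 1)
    (c : Fin k → ℝ) :
    q (∑ j, c j • P (v j)) ≤ ENNReal.ofReal
      (((lamq q k).toReal + 2 * ε + K * ∑ j, ‖Y (v j)‖ ^ 2) / (1 - ∑ j, ‖Y (v j)‖ ^ 2)) *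
        ‖∑ j, c j • P (v j)‖ₑ ^ 2 := by
  set α : ℝ := ∑ j, ‖Y (v j)‖ ^ 2 with hα
  set L : ℝ := (lamq q k).toReal with hL
  have hLe : lamq q k = ENNReal.ofReal L := (ENNReal.ofReal_toReal hl.ne).symm
  have hL0 : 0 ≤ L := ENNReal.toReal_nonneg
  have hα0 : 0 ≤ α := Finset.sum_nonneg fun j _ => sq_nonneg _
  have hK := hc.K_nonneg
  have h1 : ∑ j, c j • P (v j) = P (∑ j, c j • v j) := by simp [map_sum]
  have h2 : q (P (∑ j, c j • v j)) ≤
      q (∑ j, c j • v j) + ENNReal.ofReal (K * ‖Y (∑ j, c j • v j)‖ ^ 2) :=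
    le_self_add.trans (hc.form_le _)
  have h3 := near_min hq (ε := ENNReal.ofReal ε) (by simpa using hε) ENNReal.ofReal_ne_top hl hv
    hk ht c
  have h4 := norm_sum_sq_le Y c v
  have h5 := hc.expanding hv c
  rw [← hα] at h4 h5
  set s : ℝ := ∑ j, c j ^ 2 with hs
  have hs0 : 0 ≤ s := Finset.sum_nonneg fun j _ => sq_nonneg _
  have h6 : q (P (∑ j, c j • v j)) ≤ ENNReal.ofReal ((L + 2 * ε + K * α) * s) := by
    refine h2.trans ?_
    calc q (∑ j, c j • v j) + ENNReal.ofReal (K * ‖Y (∑ j, c j • v j)‖ ^ 2)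
        ≤ (ENNReal.ofReal L + 2 * ENNReal.ofReal ε) * ENNReal.ofReal s +
          ENNReal.ofReal (K * (s * α)) := by
          refine add_le_add ?_ (ENNReal.ofReal_le_ofReal (mul_le_mul_of_nonneg_left h4 hK))
          rw [← hLe]
          exact h3
      _ = ENNReal.ofReal ((L + 2 * ε + K * α) * s) := by
          rw [show (2:ℝ≥0∞) = ENNReal.ofReal 2 by simp, ← ENNReal.ofReal_mul (by norm_num),
            ← ENNReal.ofReal_add hL0 (by positivity), ← ENNReal.ofReal_mul (by positivity),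
            ← ENNReal.ofReal_add (by positivity) (by positivity)]
          congr 1
          ring
  rw [h1] at h5 ⊢
  refine h6.trans ?_
  rw [enorm_sq, ← ENNReal.ofReal_mul (by
    have : 0 < 1 - α := by linarith
    positivity)]
  apply ENNReal.ofReal_le_ofReal
  have h1α : 0 < 1 - α := by linarith
  rw [div_mul_eq_mul_div, le_div_iff₀ h1α]
  have h7 : 0 ≤ L + 2 * ε + K * α := by positivity
  nlinarith [mul_le_mul_of_nonneg_left h5 h7]

end Pool.Agent.R963.Opt
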