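import Pool.Agent.R963.Opt.Defs
import Pool.Agent.R963.Opt.Frame

/-!
# Calculus of weak gradients and the form
-/

set_option autoImplicit false

open MeasureTheory Set Filter Topology
open scoped ENNReal

namespace Pool.Agent.R963.Opt

variable {d : ℕ}

/-- Partial derivatives. -/
noncomputable def pd (k : Fin d) (f : Sp d → ℝ) (x : Sp d) : ℝ := fderiv ℝ f x (Pi.single k 1)

lemma memLp_test {φ : Sp d → ℝ} (hφ : ContDiff ℝ (⊤ : ℕ∞) φ) (hc : HasCompactSupport φ) :
    MemLp φ 2 volume := hφ.continuous.memLp_of_hasCompactSupport hc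

lemma continuous_pd {φ : Sp d → ℝ} (hφ : ContDiff ℝ (⊤ : ℕ∞) φ) (k : Fin d) :
    Continuous (pd k φ) := by
  have hφ1 : ContDiff ℝ 1 φ := hφ.of_le (by exact_mod_cast le_top)
  unfold pd
  exact (hφ1.continuous_fderiv one_ne_zero).clm_apply continuous_const

lemma hasCompactSupport_pd {φ : Sp d → ℝ} (hc : HasCompactSupport φ) (k : Fin d) :
    HasCompactSupport (pd k φ) :=
  (hc.fderiv ℝ).comp_left (g := fun L : (Fin d → ℝ) →L[ℝ] ℝ => L (Pi.single k 1)) (by simp)

lemma memLp_pd {φ : Sp d → ℝ} (hφ : ContDiff ℝ (⊤ : ℕ∞) φ) (hc : HasCompactSupport φ)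
    (k : Fin d) : MemLp (pd k φ) 2 volume :=
  (continuous_pd hφ k).memLp_of_hasCompactSupport (hasCompactSupport_pd hc k)

lemma WeakGrad.congr {u v : Sp d → ℝ} {g : Fin d → Sp d → ℝ} (h : WeakGrad u g)
    (huv : u =ᵐ[volume] v) : WeakGrad v g := by
  refine ⟨(memLp_congr_ae huv).1 h.memLp, h.memLp_grad, fun k φ hφ hc => ?_⟩
  rw [← h.weak k φ hφ hc]
  refine integral_congr_ae ?_
  filter_upwards [huv] with x hx
  rw [hx]

lemma WeakGrad.sum {N : ℕ} {u : Fin N → Sp d → ℝ} {g : Fin N → Fin d → Sp d → ℝ}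
    (h : ∀ i, WeakGrad (u i) (g i)) (c : Fin N → ℝ) :
    WeakGrad (fun x => ∑ i, c i * u i x) (fun k x => ∑ i, c i * g i k x) := by
  refine ⟨memLp_finsetSum _ fun i _ => (h i).memLp.const_mul (c i),
    fun k => memLp_finsetSum _ fun i _ => ((h i).memLp_grad k).const_mul (c i),
    fun k φ hφ hc => ?_⟩
  have i1 : ∀ i, Integrable (fun x => c i * (u i x * fderiv ℝ φ x (Pi.single k 1))) volume :=
    fun i => ((h i).memLp.integrable_mul (memLp_pd hφ hc k)).const_mul (c i)
  have i2 : ∀ i, Integrable (fun x => c i * (g i k x * φ x)) volume := fun i =>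
    (((h i).memLp_grad k).integrable_mul (memLp_test hφ hc)).const_mul (c i)
  simp only [Finset.sum_mul, mul_assoc]
  rw [integral_finsetSum _ fun i _ => i1 i, integral_finsetSum _ fun i _ => i2 i,
    ← Finset.sum_neg_distrib]
  refine Finset.sum_congr rfl fun i _ => ?_
  rw [integral_const_mul, integral_const_mul, (h i).weak k φ hφ hc, mul_neg]

lemma WeakGrad.const_mul {u : Sp d → ℝ} {g : Fin d → Sp d → ℝ} (h : WeakGrad u g) (c : ℝ) :
    WeakGrad (fun x => c * u x) (fun k x => c * g k x) := by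
  refine ⟨h.memLp.const_mul c, fun k => (h.memLp_grad k).const_mul c, fun k φ hφ hc => ?_⟩
  simp only [mul_assoc]
  rw [integral_const_mul, integral_const_mul, h.weak k φ hφ hc, mul_neg]

/-- The weak gradient is unique. -/
lemma WeakGrad.unique {u : Sp d → ℝ} {g g' : Fin d → Sp d → ℝ} (h : WeakGrad u g)
    (h' : WeakGrad u g') (k : Fin d) : g k =ᵐ[volume] g' k := by
  have hl : LocallyIntegrable (fun x => g k x - g' k x) volume :=
    ((h.memLp_grad k).sub (h'.memLp_grad k)).locallyIntegrable (by norm_num)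
  have h0 := ae_eq_zero_of_integral_contDiff_smul_eq_zero hl (fun φ hφ hc => by
    have i1 : Integrable (fun x => g k x * φ x) volume :=
      (h.memLp_grad k).integrable_mul (memLp_test hφ hc)
    have i2 : Integrable (fun x => g' k x * φ x) volume :=
      (h'.memLp_grad k).integrable_mul (memLp_test hφ hc)
    have e1 := h.weak k φ hφ hc
    have e2 := h'.weak k φ hφ hc
    have e3 : ∫ x, φ x • (g k x - g' k x) = (∫ x, g k x * φ x) - ∫ x, g' k x * φ x := by
      rw [← integral_sub i1 i2]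
      refine integral_congr_ae (Eventually.of_forall fun x => ?_)
      simp only [smul_eq_mul]
      ring
    rw [e3]
    rw [e1] at e2
    have := neg_injective e2
    rw [this, sub_self])
  filter_upwards [h0] with x hx
  exact sub_eq_zero.1 hx

lemma form_congr {V : Sp d → ℝ≥0∞} {u v : Sp d → ℝ} (huv : u =ᵐ[volume] v) :
    form V u = form V v := by
  have key : ∀ {u v : Sp d → ℝ}, u =ᵐ[volume] v → form V v ≤ form V u := by
    intro u v huv
    unfold form
    refine le_iInf fun g => le_iInf fun hg => ?_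
    refine iInf_le_of_le g (iInf_le_of_le (hg.congr huv) (le_of_eq ?_))
    unfold energy
    congr 1
    refine lintegral_congr_ae ?_
    filter_upwards [huv] with x hx
    rw [hx]
  exact le_antisymm (key huv.symm) (key huv)

lemma form_eq {V : Sp d → ℝ≥0∞} {u : Sp d → ℝ} {g : Fin d → Sp d → ℝ} (h : WeakGrad u g) :
    form V u = energy V u g := by
  refine le_antisymm (iInf_le_of_le g (iInf_le_of_le h le_rfl)) ?_
  unfold form
  refine le_iInf fun g' => le_iInf fun hg' => le_of_eq ?_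
  unfold energy
  congr 1
  refine lintegral_congr_ae ?_
  have h2 : ∀ᵐ x, ∀ k, g k x = g' k x := ae_all_iff.2 fun k => h.unique hg' k
  filter_upwards [h2] with x hx
  exact Finset.sum_congr rfl fun k _ => by rw [hx k]

lemma exists_grad {V : Sp d → ℝ≥0∞} {u : Sp d → ℝ} (h : form V u < ⊤) :
    ∃ g, WeakGrad u g ∧ form V u = energy V u g := by
  have h' := h
  unfold form at h'
  simp only [iInf_lt_iff] at h'
  obtain ⟨g, hg, -⟩ := h'
  exact ⟨g, hg, form_eq hg⟩

lemma WeakGrad.zero : WeakGrad (fun _ : Sp d => (0:ℝ)) (fun _ _ => 0) := by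
  refine ⟨MemLp.zero', fun _ => MemLp.zero', fun k φ _ _ => by simp⟩

lemma form_zero (V : Sp d → ℝ≥0∞) : form V (fun _ => 0) = 0 := by
  rw [form_eq WeakGrad.zero]
  unfold energy
  simp

lemma enorm_sq_real (a : ℝ) : ‖a‖ₑ ^ 2 = ENNReal.ofReal (a ^ 2) := by
  rw [← ofReal_norm, ← ENNReal.ofReal_pow (norm_nonneg _), Real.norm_eq_abs, sq_abs]

lemma energy_const_mul {V : Sp d → ℝ≥0∞} (u : Sp d → ℝ) (g : Fin d → Sp d → ℝ) (c : ℝ) :
    energy V (fun x => c * u x) (fun k x => c * g k x) = ENNReal.ofReal (c ^ 2) * energy V u g := by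
  unfold energy
  rw [mul_add, ← lintegral_const_mul' _ _ ENNReal.ofReal_ne_top,
    ← lintegral_const_mul' _ _ ENNReal.ofReal_ne_top]
  congr 1
  · refine lintegral_congr fun x => ?_
    rw [Finset.mul_sum]
    refine Finset.sum_congr rfl fun k _ => ?_
    rw [enorm_sq_real, enorm_sq_real, mul_pow, ENNReal.ofReal_mul (sq_nonneg _)]
  · refine lintegral_congr fun x => ?_
    rw [enorm_sq_real, enorm_sq_real, mul_pow, ENNReal.ofReal_mul (sq_nonneg _)]
    ring

lemma form_const_mul_le {V : Sp d → ℝ≥0∞} (u : Sp d → ℝ) {c : ℝ} (hc : c ≠ 0) :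
    form V (fun x => c * u x) ≤ ENNReal.ofReal (c ^ 2) * form V u := by
  by_cases h : form V u = ⊤
  · rw [h, ENNReal.mul_top]
    · exact le_top
    · simpa using hc
  · obtain ⟨g, hg, he⟩ := exists_grad (lt_top_iff_ne_top.2 h)
    rw [he, form_eq (hg.const_mul c), energy_const_mul]

lemma form_const_mul {V : Sp d → ℝ≥0∞} (u : Sp d → ℝ) (c : ℝ) :
    form V (fun x => c * u x) = ENNReal.ofReal (c ^ 2) * form V u := by
  by_cases hc : c = 0
  · subst hc
    simp only [zero_mul, form_zero]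
    simp
  · refine le_antisymm (form_const_mul_le u hc) ?_
    have h1 := form_const_mul_le (V := V) (fun x => c * u x) (inv_ne_zero hc)
    have h2 : (fun x => c⁻¹ * (c * u x)) = u := by
      funext x
      rw [← mul_assoc, inv_mul_cancel₀ hc, one_mul]
    rw [h2] at h1
    calc ENNReal.ofReal (c ^ 2) * form V u
        ≤ ENNReal.ofReal (c ^ 2) * (ENNReal.ofReal ((c⁻¹) ^ 2) * form V (fun x => c * u x)) :=
          mul_le_mul' le_rfl h1
      _ = form V (fun x => c * u x) := by
          rw [← mul_assoc, ← ENNReal.ofReal_mul (sq_nonneg _), ← mul_pow, mul_inv_cancel₀ hc,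
            one_pow, ENNReal.ofReal_one, one_mul]

/-- Pointwise Cauchy-Schwarz in `ℝ≥0∞`. -/
lemma enorm_sum_sq_le {k : ℕ} (c a : Fin k → ℝ) :
    ‖∑ j, c j * a j‖ₑ ^ 2 ≤ ENNReal.ofReal (∑ j, c j ^ 2) * ∑ j, ‖a j‖ₑ ^ 2 := by
  have h1 : ∀ j, ‖a j‖ₑ ^ 2 = ENNReal.ofReal (a j ^ 2) := fun j => enorm_sq_real _
  simp only [h1]
  rw [enorm_sq_real, ← ENNReal.ofReal_sum_of_nonneg fun j _ => sq_nonneg _,
    ← ENNReal.ofReal_mul (Finset.sum_nonneg fun j _ => sq_nonneg _)]
  exact ENNReal.ofReal_le_ofReal (Finset.sum_mul_sq_le_sq_mul_sq _ _ _)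

/-- Pointwise rotation invariance. -/
lemma enorm_rot {k : ℕ} (U : Fin k → Fin k → ℝ)
    (hU : ∀ j l, ∑ i, U i j * U i l = if j = l then 1 else 0) (a : Fin k → ℝ) :
    ∑ i, ‖∑ j, U i j * a j‖ₑ ^ 2 = ∑ j, ‖a j‖ₑ ^ 2 := by
  simp only [enorm_sq_real]
  rw [← ENNReal.ofReal_sum_of_nonneg fun j _ => sq_nonneg _,
    ← ENNReal.ofReal_sum_of_nonneg fun j _ => sq_nonneg _]
  congr 1
  calc ∑ i, (∑ j, U i j * a j) ^ 2 = ∑ i, ∑ j, ∑ l, (U i j * U i l) * (a j * a l) := by
        refine Finset.sum_congr rfl fun i _ => ?_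
        rw [sq, Finset.sum_mul_sum]
        refine Finset.sum_congr rfl fun j _ => Finset.sum_congr rfl fun l _ => ?_
        ring
    _ = ∑ j, ∑ l, (∑ i, U i j * U i l) * (a j * a l) := by
        rw [Finset.sum_comm]
        refine Finset.sum_congr rfl fun j _ => ?_
        rw [Finset.sum_comm]
        refine Finset.sum_congr rfl fun l _ => ?_
        rw [Finset.sum_mul]
    _ = ∑ j, a j ^ 2 := by
        refine Finset.sum_congr rfl fun j _ => ?_
        simp only [hU, ite_mul, one_mul, zero_mul, Finset.sum_ite_eq, Finset.mem_univ, if_true]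
        ring

lemma aemeas_enorm {u : Sp d → ℝ} (h : MemLp u 2 volume) :
    AEMeasurable (fun x => ‖u x‖ₑ ^ 2) volume :=
  (h.1.enorm).pow_const 2

lemma energy_sum {V : Sp d → ℝ≥0∞} (hV : AEMeasurable V volume) {k : ℕ}
    {u : Fin k → Sp d → ℝ} {g : Fin k → Fin d → Sp d → ℝ} (h : ∀ i, WeakGrad (u i) (g i)) :
    ∑ j, energy V (u j) (g j) =
      (∫⁻ x, ∑ i, ∑ j, ‖g j i x‖ₑ ^ 2) + ∫⁻ x, V x * ∑ j, ‖u j x‖ₑ ^ 2 := by
  unfold energy
  rw [Finset.sum_add_distrib]
  congr 1
  · rw [← lintegral_finsetSum']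
    · refine lintegral_congr fun x => ?_
      rw [Finset.sum_comm]
    · intro j _
      exact Finset.aemeasurable_fun_sum _ fun i _ => aemeas_enorm ((h j).memLp_grad i)
  · simp only [Finset.mul_sum]
    rw [← lintegral_finsetSum']
    intro j _
    exact hV.mul (aemeas_enorm (h j).memLp)

lemma coeFn_sum {N : ℕ} (c : Fin N → ℝ) (e : Fin N → Lp ℝ 2 (volume : Measure (Sp d)))
    (s : Finset (Fin N)) : ((∑ i ∈ s, c i • e i : Lp ℝ 2 _) : Sp d → ℝ) =ᵐ[volume]
      fun x => ∑ i ∈ s, c i * e i x := by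
  classical
  induction s using Finset.induction_on with
  | empty =>
    simp only [Finset.sum_empty]
    exact Lp.coeFn_zero _ _ _
  | insert a s ha ih =>
    rw [Finset.sum_insert ha]
    filter_upwards [ih, Lp.coeFn_add (c a • e a) (∑ i ∈ s, c i • e i), Lp.coeFn_smul (c a) (e a)]
      with x h1 h2 h3
    rw [h2, Pi.add_apply, h1, h3, Pi.smul_apply, smul_eq_mul, Finset.sum_insert ha]

/-- The form as a function on `L²`. -/
noncomputable def qf (V : Sp d → ℝ≥0∞) (u : Lp ℝ 2 (volume : Measure (Sp d))) : ℝ≥0∞ :=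
  form V u

/-- The norm of `L²`. -/
lemma lp_enorm_sq (u : Lp ℝ 2 (volume : Measure (Sp d))) : ‖u‖ₑ ^ 2 = ∫⁻ x, ‖u x‖ₑ ^ 2 := by
  rw [Lp.enorm_def]
  have := eLpNorm_nnreal_pow_eq_lintegral (f := (u : Sp d → ℝ)) (μ := volume) (p := 2) (by norm_num)
  norm_num at this
  exact_mod_cast this

lemma lam_eq (V : Sp d → ℝ≥0∞) (k : ℕ) : lam V k = lamq (qf V) k := by
  unfold lamq
  simp only [lp_enorm_sq]
  rfl

lemma qform {V : Sp d → ℝ≥0∞} (hV : AEMeasurable V volume) : QForm (qf V) where
  smul := by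
    intro c u
    unfold qf
    rw [← form_const_mul]
    exact form_congr (Lp.coeFn_smul c u)
  cs := by
    intro k c v
    unfold qf
    rw [form_congr (coeFn_sum c v Finset.univ)]
    have hs0 : 0 ≤ ∑ j, c j ^ 2 := Finset.sum_nonneg fun j _ => sq_nonneg _
    rcases hs0.eq_or_lt with h0 | h0
    · have h1 : ∀ j, c j = 0 := by
        intro j
        have := (Finset.sum_eq_zero_iff_of_nonneg fun j _ => sq_nonneg (c j)).1 h0.symm j
          (Finset.mem_univ j)
        exact pow_eq_zero_iff (two_ne_zero) |>.1 this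
      simp only [h1, zero_mul, Finset.sum_const_zero, form_zero]
      exact zero_le
    · by_cases ht : ∑ j, form V (v j) = ⊤
      · rw [ht, ENNReal.mul_top (ENNReal.ofReal_pos.2 h0).ne']
        exact le_top
      · have hj : ∀ j, form V (v j) < ⊤ := fun j =>
          (ENNReal.sum_lt_top.1 (lt_top_iff_ne_top.2 ht)) j (Finset.mem_univ j)
        choose g hg hge using fun j => exists_grad (hj j)
        rw [form_eq (WeakGrad.sum hg c), Finset.sum_congr rfl fun j _ => hge j, energy_sum hV hg,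
          mul_add, ← lintegral_const_mul' _ _ ENNReal.ofReal_ne_top,
          ← lintegral_const_mul' _ _ ENNReal.ofReal_ne_top]
        unfold energy
        refine add_le_add (lintegral_mono fun x => ?_) (lintegral_mono fun x => ?_)
        · beta_reduce
          rw [Finset.mul_sum]
          exact Finset.sum_le_sum fun i _ => enorm_sum_sq_le _ _
        · beta_reduce
          calc V x * ‖∑ j, c j * v j x‖ₑ ^ 2
              ≤ V x * (ENNReal.ofReal (∑ j, c j ^ 2) * ∑ j, ‖v j x‖ₑ ^ 2) :=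
                mul_le_mul' le_rfl (enorm_sum_sq_le _ _)
            _ = _ := by ring
  rot := by
    intro k U hU v
    unfold qf
    by_cases ht : ∑ j, form V (v j) = ⊤
    · rw [ht]; exact le_top
    · have hj : ∀ j, form V (v j) < ⊤ := fun j =>
        (ENNReal.sum_lt_top.1 (lt_top_iff_ne_top.2 ht)) j (Finset.mem_univ j)
      choose g hg hge using fun j => exists_grad (hj j)
      have h1 : ∀ i, form V (∑ j, U i j • v j : Lp ℝ 2 (volume : Measure (Sp d))) =
          energy V (fun x => ∑ j, U i j * v j x) (fun l x => ∑ j, U i j * g j l x) := by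
        intro i
        rw [form_congr (coeFn_sum (U i) v Finset.univ), form_eq (WeakGrad.sum hg (U i))]
      rw [Finset.sum_congr rfl fun i _ => h1 i, Finset.sum_congr rfl fun j _ => hge j,
        energy_sum hV hg, energy_sum hV fun i => WeakGrad.sum hg (U i)]
      refine le_of_eq ?_
      congr 1
      · refine lintegral_congr fun x => Finset.sum_congr rfl fun l _ => ?_
        exact enorm_rot U hU _
      · refine lintegral_congr fun x => ?_
        rw [enorm_rot U hU]

end Pool.Agent.R963.Opt
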