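import Mathlib

/-!
# The iteration lemma
-/

set_option autoImplicit false

open Filter Topology

namespace Pool.Agent.R963.Opt

lemma iter {P Q δ : ℝ} (hP : 0 < P) (hQ : 0 < Q) (hδ : 0 < δ) : ∃ θ : ℝ, 0 < θ ∧
    ∀ A M : ℕ → ℝ, (∀ n, 0 ≤ A n) → (∀ n, 0 ≤ M n) → (∀ n, A (n + 1) ≤ A n) →
      (∀ n, A (n + 1) ≤ P * 4 ^ n * M n ^ δ * A n) → (∀ n, M (n + 1) ≤ Q * 4 ^ n * A n) →
      A 0 ≤ θ → Tendsto M atTop (𝓝 0) := by
  set r : ℝ := (1 / 4 : ℝ) ^ (1 / δ) / 4 with hr
  have hr0 : 0 < r := by positivity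
  have hr4 : (4 * r) ^ δ = 1 / 4 := by
    have : 4 * r = (1 / 4 : ℝ) ^ (1 / δ) := by rw [hr]; ring
    rw [this, ← Real.rpow_mul (by norm_num), one_div_mul_cancel hδ.ne', Real.rpow_one]
  have hr1 : 4 * r < 1 := by
    have : 4 * r = (1 / 4 : ℝ) ^ (1 / δ) := by rw [hr]; ring
    rw [this]
    exact Real.rpow_lt_one (by norm_num) (by norm_num) (by positivity)
  set θ' : ℝ := (r / (4 * P)) ^ (1 / δ) / Q with hθ'
  have hθ'0 : 0 < θ' := by positivity
  have hθ'e : 4 * P * (Q * θ') ^ δ = r := by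
    have : Q * θ' = (r / (4 * P)) ^ (1 / δ) := by rw [hθ']; field_simp
    rw [this, ← Real.rpow_mul (by positivity), one_div_mul_cancel hδ.ne', Real.rpow_one]
    field_simp
  refine ⟨θ' * r, by positivity, fun A M hA hM hanti h1 h2 h0 => ?_⟩
  have hr1' : r ≤ 1 := by linarith
  have key : ∀ n, A n ≤ θ' * r ^ n ∧ A (n + 1) ≤ θ' * r ^ (n + 1) := by
    intro n
    induction n with
    | zero =>
      refine ⟨?_, ?_⟩
      · rw [pow_zero, mul_one]
        nlinarith
      · rw [zero_add, pow_one]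
        exact (hanti 0).trans h0
    | succ n ih =>
      refine ⟨ih.2, ?_⟩
      have hMn : M (n + 1) ≤ Q * θ' * (4 * r) ^ n := by
        refine (h2 n).trans ?_
        calc Q * 4 ^ n * A n ≤ Q * 4 ^ n * (θ' * r ^ n) :=
              mul_le_mul_of_nonneg_left ih.1 (by positivity)
          _ = Q * θ' * (4 * r) ^ n := by rw [mul_pow]; ring
      have hMn' : M (n + 1) ^ δ ≤ (Q * θ') ^ δ * (1 / 4) ^ n := by
        refine (Real.rpow_le_rpow (hM _) hMn hδ.le).trans (le_of_eq ?_)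
        rw [Real.mul_rpow (by positivity) (by positivity), ← Real.rpow_natCast (4 * r),
          ← Real.rpow_mul (by positivity), mul_comm (n:ℝ) δ, Real.rpow_mul (by positivity), hr4,
          Real.rpow_natCast]
      calc A (n + 1 + 1) ≤ P * 4 ^ (n + 1) * M (n + 1) ^ δ * A (n + 1) := h1 (n + 1)
        _ ≤ P * 4 ^ (n + 1) * ((Q * θ') ^ δ * (1 / 4) ^ n) * (θ' * r ^ (n + 1)) := by
            refine mul_le_mul (mul_le_mul_of_nonneg_left hMn' (by positivity)) ih.2 (hA _)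
              (by positivity)
        _ = (4 * P * (Q * θ') ^ δ) * ((4:ℝ) ^ n * (1 / 4) ^ n) * (θ' * r ^ (n + 1)) := by ring
        _ = θ' * r ^ (n + 1 + 1) := by
            rw [hθ'e, ← mul_pow]
            norm_num
            ring
  have hb : ∀ n, M (n + 1) ≤ Q * θ' * (4 * r) ^ n := by
    intro n
    refine (h2 n).trans ?_
    calc Q * 4 ^ n * A n ≤ Q * 4 ^ n * (θ' * r ^ n) :=
          mul_le_mul_of_nonneg_left (key n).1 (by positivity)
      _ = Q * θ' * (4 * r) ^ n := by rw [mul_pow]; ring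
  have hlim : Tendsto (fun n : ℕ => Q * θ' * (4 * r) ^ n) atTop (𝓝 0) := by
    have := (tendsto_pow_atTop_nhds_zero_of_lt_one (by positivity) hr1).const_mul (Q * θ')
    rwa [mul_zero] at this
  rw [← tendsto_add_atTop_iff_nat 1]
  exact squeeze_zero (fun n => hM _) hb hlim

end Pool.Agent.R963.Opt
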