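import Pool.Agent.R963.Opt.Grad
import Pool.Agent.Helper717.LT.P_final_thm

/-!
# The key inequality: `∫ u² ≤ C (∫ |∇u|² + ∫ V u²) (∫_{u ≠ 0} V^{-p})^{2/(2p+d)}`
-/

set_option autoImplicit false

open MeasureTheory Set Filter Topology
open scoped ENNReal

namespace Pool.Agent.R963.Opt

variable {d : ℕ}

lemma WeakGrad.toWGrad {u : Sp d → ℝ} {g : Fin d → Sp d → ℝ} (h : WeakGrad u g) :
    LTd.WGrad u g := ⟨h.memLp, h.memLp_grad, h.weak⟩

/-- A Gagliardo-Nirenberg inequality, from the Lieb-Thirring inequality. -/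
lemma gns (hd : 1 ≤ d) : ∃ C : ℝ, 0 < C ∧ ∀ (u : Sp d → ℝ) (g : Fin d → Sp d → ℝ), WeakGrad u g →
    Integrable (fun x => (u x ^ 2) ^ (1 + 2 / (d:ℝ))) ∧
    ∫ x, (u x ^ 2) ^ (1 + 2 / (d:ℝ)) ≤
      C * (∫ x, ∑ i, g i x ^ 2) * (∫ x, u x ^ 2) ^ (2 / (d:ℝ)) := by
  obtain ⟨m, rfl⟩ : ∃ m, d = m + 1 := ⟨d - 1, by omega⟩
  have hb : 0 < LTd.bco ((m:ℝ) / 2) (3 / 2) (Real.pi ^ 2 / 4) :=
    LTd.bco_pos (by positivity) (by norm_num) (by positivity)
  set b := LTd.bco ((m:ℝ) / 2) (3 / 2) (Real.pi ^ 2 / 4) with hbdef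
  refine ⟨1 / b, by positivity, fun u g h => ?_⟩
  set q : ℝ := 1 + 2 / ((m + 1 : ℕ) : ℝ) with hq
  have hq0 : 0 < q := by positivity
  have hint : Integrable (fun x => u x ^ 2) volume := h.memLp.integrable_sq
  have hA0 : 0 ≤ ∫ x, u x ^ 2 := integral_nonneg fun x => sq_nonneg _
  have hG0 : 0 ≤ ∫ x, ∑ i, g i x ^ 2 :=
    integral_nonneg fun x => Finset.sum_nonneg fun i _ => sq_nonneg _
  rcases hA0.eq_or_lt with hA | hA
  · have h2 : (fun x => u x ^ 2) =ᵐ[volume] 0 :=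
      (integral_eq_zero_iff_of_nonneg (fun x => sq_nonneg _) hint).1 hA.symm
    have h3 : (fun x => (u x ^ 2) ^ q) =ᵐ[volume] fun _ => 0 := by
      filter_upwards [h2] with x hx
      have hx' : u x ^ 2 = 0 := hx
      rw [hx', Real.zero_rpow hq0.ne']
    refine ⟨(integrable_zero _ _ _).congr h3.symm, ?_⟩
    rw [integral_congr_ae h3, integral_zero]
    positivity
  · set A : ℝ := ∫ x, u x ^ 2 with hAd
    set c : ℝ := (√A)⁻¹ with hc
    have hc2 : c ^ 2 = A⁻¹ := by rw [hc, inv_pow, Real.sq_sqrt hA.le]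
    have hv := (h.const_mul c).toWGrad
    have h3 := LTd.H_real m 1 (fun _ x => c * u x) (fun _ k x => c * g k x) (fun _ => hv) (by
      intro v
      have e1 : ∀ x, (∑ i : Fin 1, v i * (c * u x)) ^ 2 = (v 0 ^ 2 * A⁻¹) * u x ^ 2 := by
        intro x
        rw [Fin.sum_univ_one, ← hc2]
        ring
      simp only [e1]
      rw [Fin.sum_univ_one, integral_const_mul, ← hAd, mul_assoc, inv_mul_cancel₀ hA.ne', mul_one])
    rw [LTd.final_thm_pp, ← hq] at h3
    have e2 : ∀ x, (∑ _i : Fin 1, (c * u x) ^ 2) ^ q = A⁻¹ ^ q * (u x ^ 2) ^ q := by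
      intro x
      rw [Fin.sum_univ_one, mul_pow, hc2, Real.mul_rpow (by positivity) (sq_nonneg _)]
    have e3 : ∀ x, ∑ j, ∑ _i : Fin 1, (c * g j x) ^ 2 = A⁻¹ * ∑ j, g j x ^ 2 := by
      intro x
      rw [Finset.mul_sum]
      refine Finset.sum_congr rfl fun j _ => ?_
      rw [Fin.sum_univ_one, mul_pow, hc2]
    simp only [e2, e3] at h3
    obtain ⟨h4, h5⟩ := h3
    have hAq : 0 < A ^ q := by positivity
    constructor
    · have h6 := h4.const_mul (A ^ q)
      refine h6.congr (Eventually.of_forall fun x => ?_)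
      simp only
      rw [← mul_assoc, Real.inv_rpow hA.le, mul_inv_cancel₀ hAq.ne', one_mul]
    · rw [integral_const_mul, integral_const_mul, Real.inv_rpow hA.le, ← hbdef] at h5
      have h7 : A ^ q = A * A ^ (2 / ((m + 1 : ℕ) : ℝ)) := by
        rw [hq, Real.rpow_add hA, Real.rpow_one]
      set I := ∫ x, (u x ^ 2) ^ q with hI
      set G := ∫ x, ∑ i, g i x ^ 2 with hG
      have h8 : b * I ≤ G * A ^ (2 / ((m + 1 : ℕ) : ℝ)) := by
        have h9 : b * ((A ^ q)⁻¹ * I) * A ^ q ≤ A⁻¹ * G * A ^ q :=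
          mul_le_mul_of_nonneg_right h5 hAq.le
        have h10 : b * ((A ^ q)⁻¹ * I) * A ^ q = b * I := by
          field_simp
        have h11 : A⁻¹ * G * A ^ q = G * A ^ (2 / ((m + 1 : ℕ) : ℝ)) := by
          rw [h7]
          field_simp
        rw [h10, h11] at h9
        exact h9
      have h12 : I ≤ (G * A ^ (2 / ((m + 1 : ℕ) : ℝ))) / b := by
        rw [le_div_iff₀ hb]
        linarith
      calc I ≤ _ := h12
        _ = _ := by ring

/-- Elementary algebra. -/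
lemma key_alg {d : ℝ} (hd : 0 < d) {p : ℝ} (hp : 0 < p) {C A D m : ℝ} (hC : 0 < C) (hA : 0 ≤ A)
    (hD : 0 ≤ D) (hm : 0 ≤ m)
    (h : A ≤ (D ^ (p / (p + 1)) * m ^ (1 / (p + 1))) ^ ((2 * p + 2) / (d + 2 * p + 2)) *
      (C * D * A ^ (2 / d)) ^ (d / (d + 2 * p + 2))) :
    A ≤ C ^ (d / (2 * p + d)) * D * m ^ (2 / (2 * p + d)) := by
  set N : ℝ := d + 2 * p + 2 with hN
  have hN0 : 0 < N := by positivity
  rcases hA.eq_or_lt with hA0 | hA0
  · rw [← hA0]; positivity
  have hD0 : 0 < D := by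
    rcases hD.eq_or_lt with h0 | h0
    · rw [← h0, Real.zero_rpow (by positivity : p / (p + 1) ≠ 0), zero_mul,
        Real.zero_rpow (by positivity : (2 * p + 2) / N ≠ 0), zero_mul] at h
      linarith
    · exact h0
  have hm0 : 0 < m := by
    rcases hm.eq_or_lt with h0 | h0
    · rw [← h0, Real.zero_rpow (by positivity : 1 / (p + 1) ≠ 0), mul_zero,
        Real.zero_rpow (by positivity : (2 * p + 2) / N ≠ 0), zero_mul] at h
      linarith
    · exact h0
  have e1 : (D ^ (p / (p + 1)) * m ^ (1 / (p + 1))) ^ ((2 * p + 2) / N) =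
      D ^ (2 * p / N) * m ^ (2 / N) := by
    rw [Real.mul_rpow (by positivity) (by positivity), ← Real.rpow_mul hD0.le,
      ← Real.rpow_mul hm0.le]
    congr 2
    · field_simp
    · field_simp
  have e2 : (C * D * A ^ (2 / d)) ^ (d / N) = C ^ (d / N) * D ^ (d / N) * A ^ (2 / N) := by
    rw [Real.mul_rpow (by positivity) (by positivity), Real.mul_rpow hC.le hD0.le,
      ← Real.rpow_mul hA0.le]
    congr 2
    field_simp
  rw [e1, e2] at h
  have e3 : A = A ^ ((2 * p + d) / N) * A ^ (2 / N) := by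
    rw [← Real.rpow_add hA0]
    conv_lhs => rw [← Real.rpow_one A]
    congr 1
    rw [hN]
    field_simp
    ring
  have e4 : D ^ (2 * p / N) * D ^ (d / N) = D ^ ((2 * p + d) / N) := by
    rw [← Real.rpow_add hD0]
    congr 1
    ring
  have h1 : A ^ ((2 * p + d) / N) ≤ C ^ (d / N) * D ^ ((2 * p + d) / N) * m ^ (2 / N) := by
    have hA2 : 0 < A ^ (2 / N) := by positivity
    have h2 : A ^ ((2 * p + d) / N) * A ^ (2 / N) ≤
        (C ^ (d / N) * D ^ ((2 * p + d) / N) * m ^ (2 / N)) * A ^ (2 / N) := by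
      rw [← e3]
      refine h.trans (le_of_eq ?_)
      rw [← e4]
      ring
    exact le_of_mul_le_mul_right h2 hA2
  have h2 := Real.rpow_le_rpow (by positivity) h1 (by positivity : 0 ≤ N / (2 * p + d))
  have hpd : 0 < 2 * p + d := by positivity
  rw [← Real.rpow_mul hA0.le, Real.mul_rpow (by positivity) (by positivity),
    Real.mul_rpow (by positivity) (by positivity), ← Real.rpow_mul hC.le, ← Real.rpow_mul hD0.le,
    ← Real.rpow_mul hm0.le] at h2
  have e5 : (2 * p + d) / N * (N / (2 * p + d)) = 1 := by field_simp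
  have e6 : d / N * (N / (2 * p + d)) = d / (2 * p + d) := by field_simp
  have e7 : 2 / N * (N / (2 * p + d)) = 2 / (2 * p + d) := by field_simp
  rw [e5, e6, e7, Real.rpow_one, Real.rpow_one] at h2
  exact h2

/-- **The key inequality.** -/
theorem key (hd : 1 ≤ d) {p : ℝ} (hp : 0 < p) : ∃ C : ℝ, 0 < C ∧ ∀ (V : Sp d → ℝ≥0∞),
    AEMeasurable V volume → ∀ (u : Sp d → ℝ) (E : Set (Sp d)), MeasurableSet E →
    (∀ᵐ x, x ∉ E → u x = 0) → form V u < ⊤ → ∫⁻ x in E, V x ^ (-p) < ⊤ →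
    ∫⁻ x, ‖u x‖ₑ ^ 2 ≤
      ENNReal.ofReal C * form V u * (∫⁻ x in E, V x ^ (-p)) ^ (2 / (2 * p + d)) := by
  obtain ⟨C, hC, hgns⟩ := gns hd
  have hd0 : (0:ℝ) < d := by exact_mod_cast hd
  refine ⟨C ^ ((d:ℝ) / (2 * p + d)), by positivity, fun V hV u E hE hu hf hm => ?_⟩
  obtain ⟨g, hg, hge⟩ := exists_grad hf
  obtain ⟨hint, hgns⟩ := hgns u g hg
  set N : ℝ := d + 2 * p + 2 with hN
  have hN0 : 0 < N := by positivity
  have hwm : AEMeasurable (fun x => ‖u x‖ₑ ^ 2) volume := aemeas_enorm hg.memLp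
  -- Hölder, first step
  have H1 : ∫⁻ x, ‖u x‖ₑ ^ 2 ≤
      (∫⁻ x, (‖u x‖ₑ ^ 2) ^ (p / (p + 1))) ^ ((2 * p + 2) / N) *
        (∫⁻ x, (‖u x‖ₑ ^ 2) ^ (1 + 2 / (d:ℝ))) ^ ((d:ℝ) / N) := by
    refine le_trans (le_of_eq ?_) (ENNReal.lintegral_mul_norm_pow_le (hwm.pow_const _)
      (hwm.pow_const _) (by positivity) (by positivity) (by rw [hN]; field_simp; ring))
    refine lintegral_congr fun x => ?_
    rw [← ENNReal.rpow_mul, ← ENNReal.rpow_mul, ← ENNReal.rpow_add_of_nonneg _ _ (by positivity)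
      (by positivity)]
    conv_lhs => rw [← ENNReal.rpow_one (‖u x‖ₑ ^ 2)]
    congr 1
    rw [hN]
    field_simp
    ring
  -- Hölder, second step
  set m := ∫⁻ x in E, V x ^ (-p) with hmd
  have hme : m = ∫⁻ x, E.indicator (fun x => V x ^ (-p)) x := by
    rw [hmd, lintegral_indicator hE]
  have hVp : AEMeasurable (E.indicator (fun x => V x ^ (-p))) volume :=
    (hV.pow_const _).indicator hE
  set D := form V u with hDd
  have hVu : ∫⁻ x, V x * ‖u x‖ₑ ^ 2 ≤ D := by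
    rw [hge]; unfold energy; exact le_add_self
  have hGu : ∫⁻ x, ∑ i, ‖g i x‖ₑ ^ 2 ≤ D := by
    rw [hge]; unfold energy; exact le_self_add
  have hinf1 : ∀ᵐ x, V x * ‖u x‖ₑ ^ 2 < ⊤ :=
    ae_lt_top' (hV.mul hwm) (lt_of_le_of_lt hVu hf).ne
  have hinf2 : ∀ᵐ x, E.indicator (fun x => V x ^ (-p)) x < ⊤ :=
    ae_lt_top' hVp (by rw [← hme]; exact hm.ne)
  have H2 : ∫⁻ x, (‖u x‖ₑ ^ 2) ^ (p / (p + 1)) ≤ D ^ (p / (p + 1)) * m ^ (1 / (p + 1)) := by
    calc ∫⁻ x, (‖u x‖ₑ ^ 2) ^ (p / (p + 1))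
        ≤ ∫⁻ x, (V x * ‖u x‖ₑ ^ 2) ^ (p / (p + 1)) *
            (E.indicator (fun x => V x ^ (-p)) x) ^ (1 / (p + 1)) := by
          refine lintegral_mono_ae ?_
          filter_upwards [hu, hinf1, hinf2] with x h1 h2 h3
          by_cases hu0 : u x = 0
          · rw [hu0]
            simp only [enorm_zero, ne_eq, OfNat.ofNat_ne_zero, not_false_eq_true, zero_pow]
            rw [ENNReal.zero_rpow_of_pos (by positivity)]
            exact zero_le
          · have hxE : x ∈ E := by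
              by_contra hx
              exact hu0 (h1 hx)
            rw [indicator_of_mem hxE] at h3 ⊢
            have hw0 : ‖u x‖ₑ ^ 2 ≠ 0 := by
              rw [enorm_sq_real]
              have : 0 < u x ^ 2 := by positivity
              exact (ENNReal.ofReal_pos.2 this).ne'
            have hVt : V x ≠ ⊤ := by
              intro hVx
              rw [hVx, ENNReal.top_mul hw0] at h2
              exact lt_irrefl _ h2
            have hV0 : V x ≠ 0 := by
              intro hVx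
              rw [hVx, ENNReal.zero_rpow_of_neg (by linarith)] at h3
              exact lt_irrefl _ h3
            refine le_of_eq ?_
            rw [ENNReal.mul_rpow_of_nonneg _ _ (by positivity), ← ENNReal.rpow_mul]
            have h4 : V x ^ (p / (p + 1)) * V x ^ (-p * (1 / (p + 1))) = 1 := by
              rw [← ENNReal.rpow_add _ _ hV0 hVt]
              rw [show p / (p + 1) + -p * (1 / (p + 1)) = 0 by ring, ENNReal.rpow_zero]
            rw [mul_comm (V x ^ (p / (p + 1))), mul_assoc, h4, mul_one]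
      _ ≤ (∫⁻ x, V x * ‖u x‖ₑ ^ 2) ^ (p / (p + 1)) *
            (∫⁻ x, E.indicator (fun x => V x ^ (-p)) x) ^ (1 / (p + 1)) :=
          ENNReal.lintegral_mul_norm_pow_le (hV.mul hwm) hVp (by positivity) (by positivity)
            (by field_simp)
      _ ≤ D ^ (p / (p + 1)) * m ^ (1 / (p + 1)) := by
          rw [← hme]
          exact mul_le_mul' (ENNReal.rpow_le_rpow hVu (by positivity)) le_rfl
  -- real numbers
  obtain ⟨Dr, hD0, hDe⟩ : ∃ Dr : ℝ, 0 ≤ Dr ∧ D = ENNReal.ofReal Dr :=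
    ⟨D.toReal, ENNReal.toReal_nonneg, (ENNReal.ofReal_toReal hf.ne).symm⟩
  obtain ⟨mr, hm0, hmE⟩ : ∃ mr : ℝ, 0 ≤ mr ∧ m = ENNReal.ofReal mr :=
    ⟨m.toReal, ENNReal.toReal_nonneg, (ENNReal.ofReal_toReal hm.ne).symm⟩
  have hG : ∫ x, ∑ i, g i x ^ 2 ≤ Dr := by
    have hi : Integrable (fun x => ∑ i, g i x ^ 2) volume :=
      integrable_finsetSum _ fun i _ => (hg.memLp_grad i).integrable_sq
    have h1 : ENNReal.ofReal (∫ x, ∑ i, g i x ^ 2) = ∫⁻ x, ∑ i, ‖g i x‖ₑ ^ 2 := by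
      rw [ofReal_integral_eq_lintegral_ofReal hi
        (Eventually.of_forall fun x => Finset.sum_nonneg fun i _ => sq_nonneg _)]
      refine lintegral_congr fun x => ?_
      rw [ENNReal.ofReal_sum_of_nonneg fun i _ => sq_nonneg _]
      exact Finset.sum_congr rfl fun i _ => (enorm_sq_real _).symm
    rw [← h1, hDe] at hGu
    exact (ENNReal.ofReal_le_ofReal_iff hD0).1 hGu
  have hAi : Integrable (fun x => u x ^ 2) volume := hg.memLp.integrable_sq
  set A : ℝ := ∫ x, u x ^ 2 with hA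
  have hA0 : 0 ≤ A := integral_nonneg fun x => sq_nonneg _
  have hAe : ∫⁻ x, ‖u x‖ₑ ^ 2 = ENNReal.ofReal A := by
    rw [hA, ofReal_integral_eq_lintegral_ofReal hAi (Eventually.of_forall fun x => sq_nonneg _)]
    exact lintegral_congr fun x => enorm_sq_real _
  have hBe : ∫⁻ x, (‖u x‖ₑ ^ 2) ^ (1 + 2 / (d:ℝ)) ≤
      ENNReal.ofReal (C * Dr * A ^ (2 / (d:ℝ))) := by
    have h1 : ∫⁻ x, (‖u x‖ₑ ^ 2) ^ (1 + 2 / (d:ℝ)) =
        ENNReal.ofReal (∫ x, (u x ^ 2) ^ (1 + 2 / (d:ℝ))) := by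
      rw [ofReal_integral_eq_lintegral_ofReal hint
        (Eventually.of_forall fun x => Real.rpow_nonneg (sq_nonneg _) _)]
      refine lintegral_congr fun x => ?_
      rw [enorm_sq_real, ENNReal.ofReal_rpow_of_nonneg (sq_nonneg _) (by positivity)]
    rw [h1]
    apply ENNReal.ofReal_le_ofReal
    refine hgns.trans ?_
    exact mul_le_mul_of_nonneg_right (mul_le_mul_of_nonneg_left hG hC.le) (by positivity)
  have H3 : A ≤ (Dr ^ (p / (p + 1)) * mr ^ (1 / (p + 1))) ^ ((2 * p + 2) / N) *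
      (C * Dr * A ^ (2 / (d:ℝ))) ^ ((d:ℝ) / N) := by
    have h1 : ENNReal.ofReal A ≤ (D ^ (p / (p + 1)) * m ^ (1 / (p + 1))) ^ ((2 * p + 2) / N) *
        (ENNReal.ofReal (C * Dr * A ^ (2 / (d:ℝ)))) ^ ((d:ℝ) / N) := by
      rw [← hAe]
      exact H1.trans (mul_le_mul' (ENNReal.rpow_le_rpow H2 (by positivity))
        (ENNReal.rpow_le_rpow hBe (by positivity)))
    rw [hDe, hmE, ENNReal.ofReal_rpow_of_nonneg hD0 (by positivity),
      ENNReal.ofReal_rpow_of_nonneg hm0 (by positivity), ← ENNReal.ofReal_mul (by positivity),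
      ENNReal.ofReal_rpow_of_nonneg (by positivity) (by positivity),
      ENNReal.ofReal_rpow_of_nonneg (by positivity) (by positivity),
      ← ENNReal.ofReal_mul (by positivity), ENNReal.ofReal_le_ofReal_iff (by positivity)] at h1
    exact h1
  have H4 := key_alg hd0 hp hC hA0 hD0 hm0 H3
  rw [hAe]
  calc ENNReal.ofReal A ≤ ENNReal.ofReal (C ^ ((d:ℝ) / (2 * p + d)) * Dr *
        mr ^ (2 / (2 * p + d))) := ENNReal.ofReal_le_ofReal H4
    _ = _ := by
        rw [ENNReal.ofReal_mul (by positivity), ENNReal.ofReal_mul (by positivity), ← hDe,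
          ← ENNReal.ofReal_rpow_of_nonneg hm0 (by positivity), ← hmE]

end Pool.Agent.R963.Opt
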