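import Pool.Agent.R963.Opt.Scale
import Pool.Agent.R963.Opt.Key
import Pool.Agent.R963.Opt.FinL
import Pool.Agent.R963.Opt.Iter

/-!
# Optimal potentials have bounded sets of finiteness
-/

set_option autoImplicit false

open MeasureTheory Set Filter Topology
open scoped ENNReal

namespace Pool.Agent.R963.Opt

variable {d : ℕ}

/-- The outer region. -/
def Om (s : ℝ) : Set (Sp d) := {x | s < rho x}

lemma measurableSet_Om (s : ℝ) : MeasurableSet (Om s : Set (Sp d)) :=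
  measurableSet_lt measurable_const measurable_rho

/-- The mass in the outer region. -/
noncomputable def mO (p : ℝ) (V : Sp d → ℝ≥0∞) (s : ℝ) : ℝ := (∫⁻ x in Om s, V x ^ (-p)).toReal

lemma mO_nonneg (p : ℝ) (V : Sp d → ℝ≥0∞) (s : ℝ) : 0 ≤ mO p V s := ENNReal.toReal_nonneg

section

variable {p : ℝ} {V : Sp d → ℝ≥0∞}

lemma mass_le (hA : InA p V) (s : ℝ) : ∫⁻ x in Om s, V x ^ (-p) ≤ 1 :=
  (setLIntegral_le_lintegral _ _).trans hA.mass

lemma mO_eq (hA : InA p V) (s : ℝ) : ∫⁻ x in Om s, V x ^ (-p) = ENNReal.ofReal (mO p V s) :=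
  (ENNReal.ofReal_toReal (lt_of_le_of_lt (mass_le hA s) ENNReal.one_lt_top).ne).symm

lemma mO_le_one (hA : InA p V) (s : ℝ) : mO p V s ≤ 1 := by
  have h := mass_le hA s
  rw [mO_eq hA] at h
  rwa [ENNReal.ofReal_le_one] at h

lemma mO_anti (hA : InA p V) {s t : ℝ} (hst : s ≤ t) : mO p V t ≤ mO p V s := by
  unfold mO
  refine ENNReal.toReal_mono (lt_of_le_of_lt (mass_le hA s) ENNReal.one_lt_top).ne ?_
  exact lintegral_mono_set fun x hx => lt_of_le_of_lt hst hx

lemma mO_tendsto (hA : InA p V) : Tendsto (fun n : ℕ => mO p V n) atTop (𝓝 0) := by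
  have hVp : AEMeasurable (fun x => V x ^ (-p)) volume := hA.meas.pow_const _
  have h1 : Tendsto (fun n : ℕ => ∫⁻ x, (Om (n:ℝ)).indicator (fun x => V x ^ (-p)) x) atTop
      (𝓝 (∫⁻ _ : Sp d, 0)) := by
    refine tendsto_lintegral_of_dominated_convergence' (fun x => V x ^ (-p))
      (fun n => hVp.indicator (measurableSet_Om _)) (fun n => ?_)
      (lt_of_le_of_lt hA.mass ENNReal.one_lt_top).ne ?_
    · exact Eventually.of_forall fun x => indicator_le_self' (fun _ _ => zero_le) x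
    · refine Eventually.of_forall fun x => ?_
      refine tendsto_const_nhds.congr' ?_
      obtain ⟨N, hN⟩ := exists_nat_ge (rho x)
      filter_upwards [eventually_ge_atTop N] with n hn
      have : x ∉ Om (n:ℝ) := by
        intro hx
        have h2 : (n:ℝ) < rho x := hx
        have h3 : (N:ℝ) ≤ n := by exact_mod_cast hn
        linarith
      rw [indicator_of_notMem this]
  rw [lintegral_zero] at h1
  have h2 : (fun n : ℕ => mO p V n) =
      fun n : ℕ => (∫⁻ x, (Om (n:ℝ)).indicator (fun x => V x ^ (-p)) x).toReal := by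
    funext n
    unfold mO
    rw [lintegral_indicator (measurableSet_Om _)]
  rw [h2]
  have := (ENNReal.tendsto_toReal ENNReal.zero_ne_top).comp h1
  exact this

/-- `V` vanishing outer mass means `V = ∞` there. -/
lemma ae_top (hp : 0 < p) (hA : InA p V) {s : ℝ} (h : mO p V s = 0) :
    ∀ᵐ x, s < rho x → V x = ⊤ := by
  have h1 : ∫⁻ x in Om s, V x ^ (-p) = 0 := by rw [mO_eq hA, h, ENNReal.ofReal_zero]
  rw [lintegral_eq_zero_iff' (hA.meas.pow_const _).restrict, Filter.EventuallyEq,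
    ae_restrict_iff' (measurableSet_Om s)] at h1
  filter_upwards [h1] with x hx hs
  have h2 : V x ^ (-p) = 0 := hx hs
  rw [ENNReal.rpow_eq_zero_iff] at h2
  rcases h2 with ⟨-, h2⟩ | ⟨h2, -⟩
  · linarith
  · exact h2

/-- The form of a restricted potential. -/
lemma form_restrict {V₁ : Sp d → ℝ≥0∞} {u : Sp d → ℝ}
    (h : ∀ᵐ x, V₁ x = V x ∨ u x = 0) : form V₁ u = form V u := by
  unfold form
  refine iInf_congr fun g => iInf_congr fun _ => ?_
  unfold energy
  congr 1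
  refine lintegral_congr_ae ?_
  filter_upwards [h] with x hx
  rcases hx with hx | hx
  · rw [hx]
  · rw [hx]; simp

/-- The outer norms of a frame. -/
noncomputable def aO {k : ℕ} (v : Fin k → Lp ℝ 2 (volume : Measure (Sp d))) (s : ℝ) : ℝ :=
  ∑ j, ‖YL s (v j)‖ ^ 2

lemma aO_nonneg {k : ℕ} (v : Fin k → Lp ℝ 2 (volume : Measure (Sp d))) (s : ℝ) : 0 ≤ aO v s :=
  Finset.sum_nonneg fun _ _ => sq_nonneg _

lemma norm_YL_le {s t : ℝ} (hst : s < t) (u : Lp ℝ 2 (volume : Measure (Sp d))) :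
    ‖YL t u‖ ^ 2 ≤ ‖ZL s t u‖ ^ 2 := by
  have h1 : ENNReal.ofReal (‖YL t u‖ ^ 2) ≤ ENNReal.ofReal (‖ZL s t u‖ ^ 2) := by
    unfold ZL YL
    rw [enorm_mulL, enorm_mulL]
    refine lintegral_mono fun x => mul_le_mul' (ENNReal.ofReal_le_ofReal ?_) le_rfl
    unfold ind
    split_ifs with h
    · rw [zeta_eq_one hst h.le]
    · rw [zero_pow (by norm_num)]
      exact sq_nonneg _
  rwa [ENNReal.ofReal_le_ofReal_iff (by positivity)] at h1

lemma aO_anti {k : ℕ} (v : Fin k → Lp ℝ 2 (volume : Measure (Sp d))) {s t : ℝ} (hs : 0 ≤ s)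
    (hst : s < t) : aO v t ≤ aO v s := by
  refine Finset.sum_le_sum fun j _ => (norm_YL_le hst _).trans ?_
  have := (cutData (V := fun _ : Sp d => (0:ℝ≥0∞)) aemeasurable_const hs hst).norm_le (v j)
  exact this

/-- Consequence of the key inequality. -/
lemma outer_norm (hd : 1 ≤ d) (hp : 0 < p) : ∃ C : ℝ, 0 < C ∧ ∀ V : Sp d → ℝ≥0∞, InA p V →
    (∀ u : Lp ℝ 2 (volume : Measure (Sp d)), qf V u < ⊤ →
      ENNReal.ofReal (‖u‖ ^ 2) ≤ ENNReal.ofReal C * qf V u) ∧
    ∀ (k : ℕ) (v : Fin k → Lp ℝ 2 (volume : Measure (Sp d))) (s t X : ℝ), 0 ≤ s → s < t → 0 ≤ X →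
      ∑ j, qf V (ZL s t (v j)) ≤ ENNReal.ofReal X →
      aO v t ≤ C * X * mO p V s ^ (2 / (2 * p + d)) := by
  obtain ⟨C, hC, hkey⟩ := key hd hp
  have hd0 : (0:ℝ) < d := by exact_mod_cast hd
  refine ⟨C, hC, fun V hA => ⟨fun u hu => ?_, fun k v s t X hs hst hX hq => ?_⟩⟩
  · have h1 := hkey V hA.meas u univ MeasurableSet.univ (Eventually.of_forall fun x hx =>
      absurd (mem_univ x) hx) hu (by
        rw [Measure.restrict_univ]
        exact lt_of_le_of_lt hA.mass ENNReal.one_lt_top)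
    rw [← lp_enorm_sq, enorm_sq, Measure.restrict_univ] at h1
    refine h1.trans ?_
    have h2 : (∫⁻ x, V x ^ (-p)) ^ (2 / (2 * p + d)) ≤ 1 :=
      ENNReal.rpow_le_one hA.mass (by positivity)
    calc ENNReal.ofReal C * form V u * (∫⁻ x, V x ^ (-p)) ^ (2 / (2 * p + d))
        ≤ ENNReal.ofReal C * form V u * 1 := mul_le_mul' le_rfl h2
      _ = _ := by rw [mul_one]; rfl
  · have hfin : ∀ j, qf V (ZL s t (v j)) < ⊤ := fun j =>
      (ENNReal.sum_lt_top.1 (lt_of_le_of_lt hq ENNReal.ofReal_lt_top)) j (Finset.mem_univ j)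
    have hm0 := mO_nonneg p V s
    have h1 : ∀ j, ENNReal.ofReal (‖YL t (v j)‖ ^ 2) ≤
        ENNReal.ofReal C * qf V (ZL s t (v j)) * ENNReal.ofReal (mO p V s ^ (2 / (2 * p + d))) := by
      intro j
      refine (ENNReal.ofReal_le_ofReal (norm_YL_le hst (v j))).trans ?_
      have h2 := hkey V hA.meas (ZL s t (v j)) (Om s) (measurableSet_Om s) (by
        have h3 : (ZL s t (v j) : Sp d → ℝ) =ᵐ[volume] fun x => zeta s t x * v j x :=
          mulL_ae _ _ _ (v j)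
        filter_upwards [h3] with x hx hxs
        rw [hx, zeta_eq_zero hst (not_lt.1 hxs), zero_mul]) (hfin j)
        (lt_of_le_of_lt (mass_le hA s) ENNReal.one_lt_top)
      rw [← lp_enorm_sq, enorm_sq, mO_eq hA, ENNReal.ofReal_rpow_of_nonneg hm0 (by positivity)]
        at h2
      exact h2
    have h2 : ENNReal.ofReal (aO v t) ≤
        ENNReal.ofReal (C * X * mO p V s ^ (2 / (2 * p + d))) := by
      unfold aO
      rw [ENNReal.ofReal_sum_of_nonneg fun _ _ => sq_nonneg _]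
      refine (Finset.sum_le_sum fun j _ => h1 j).trans ?_
      rw [← Finset.sum_mul, ← Finset.mul_sum, ENNReal.ofReal_mul (by positivity),
        ENNReal.ofReal_mul hC.le]
      exact mul_le_mul' (mul_le_mul' le_rfl hq) le_rfl
    rwa [ENNReal.ofReal_le_ofReal_iff (by positivity)] at h2

lemma one_sub_rpow_le {δ m : ℝ} (hδ : 0 < δ) (hm0 : 0 ≤ m) (hm1 : m < 1) :
    (1 - m) ^ δ ≤ 1 - min δ 1 * m := by
  rcases le_total δ 1 with h | h
  · rw [min_eq_left h]
    have := rpow_one_add_le_one_add_mul_self (s := -m) (by linarith) hδ.le h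
    rw [← sub_eq_add_neg] at this
    linarith
  · rw [min_eq_right h, one_mul]
    have h1 : (1 - m) ^ δ ≤ (1 - m) ^ (1:ℝ) :=
      Real.rpow_le_rpow_of_exponent_ge (by linarith) (by linarith) h
    rwa [Real.rpow_one] at h1

/-- **The mass estimate from the minimality.** -/
lemma mass_est (hd : 1 ≤ d) (hp : 0 < p) {k : ℕ} (hk : 1 ≤ k) (hV : IsOptimal p k V)
    (hl : lam V k < ⊤) {ε : ℝ} (hε : 0 < ε) {v : Fin k → Lp ℝ 2 (volume : Measure (Sp d))}
    (hv : Expanding v) (ht : ∑ j, qf V (v j) ≤ trq (qf V) k + ENNReal.ofReal ε) {s t : ℝ}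
    (hs : 0 ≤ s) (hst : s < t) (ha : aO v s < 1) (hm : mO p V t < 1) :
    min (2 / (2 * p + d)) 1 * (lam V k).toReal * mO p V t ≤
      (lam V k).toReal * aO v s + 2 * ε + CK * t / (t - s) ^ 2 * aO v s := by
  have hd0 : (0:ℝ) < d := by exact_mod_cast hd
  have hA := hV.1
  have hq := qform hA.meas
  have hc := cutData hA.meas hs hst
  set K : ℝ := CK * t / (t - s) ^ 2 with hK
  have hK0 : 0 ≤ K := hc.K_nonneg
  set α : ℝ := aO v s with hα
  have hα0 : 0 ≤ α := aO_nonneg v s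
  set m : ℝ := mO p V t with hmd
  have hm0 : 0 ≤ m := mO_nonneg p V t
  set L : ℝ := (lam V k).toReal with hL
  have hL0 : 0 ≤ L := ENNReal.toReal_nonneg
  set δ : ℝ := 2 / (2 * p + d) with hδ
  have hδ0 : 0 < δ := by positivity
  -- the competitor
  set V₁ : Sp d → ℝ≥0∞ := fun x => V x + (Om t).indicator (fun _ => (⊤ : ℝ≥0∞)) x with hV₁
  have hV₁m : AEMeasurable V₁ volume :=
    hA.meas.add (measurable_const.indicator (measurableSet_Om t)).aemeasurable
  have hV₁in : ∀ x, x ∉ Om t → V₁ x = V x := by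
    intro x hx
    rw [hV₁]
    simp only
    rw [indicator_of_notMem hx, add_zero]
  have hV₁out : ∀ x, x ∈ Om t → V₁ x = ⊤ := by
    intro x hx
    rw [hV₁]
    simp only
    rw [indicator_of_mem hx, add_top]
  have hmass : ∫⁻ x, V₁ x ^ (-p) ≤ ENNReal.ofReal (1 - m) := by
    have h1 : ∫⁻ x, V₁ x ^ (-p) = ∫⁻ x in (Om t)ᶜ, V x ^ (-p) := by
      rw [← lintegral_indicator (measurableSet_Om t).compl]
      refine lintegral_congr fun x => ?_
      by_cases hx : x ∈ Om t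
      · rw [hV₁out x hx, ENNReal.top_rpow_of_neg (by linarith), indicator_of_notMem]
        simpa using hx
      · rw [hV₁in x hx, indicator_of_mem]
        exact hx
    have h2 : (∫⁻ x in Om t, V x ^ (-p)) + ∫⁻ x in (Om t)ᶜ, V x ^ (-p) = ∫⁻ x, V x ^ (-p) :=
      lintegral_add_compl _ (measurableSet_Om t)
    rw [h1, ENNReal.ofReal_sub _ hm0, ENNReal.ofReal_one]
    refine ENNReal.le_sub_of_add_le_left ENNReal.ofReal_ne_top ?_
    rw [hmd, ← mO_eq hA, h2]
    exact hA.mass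
  have h1m : 0 < 1 - m := by linarith
  set σ : ℝ := (1 - m) ^ (1 / (2 * p + d)) with hσ
  have hσ0 : 0 < σ := by positivity
  have hσ1 : σ ^ (2 * p + d) = 1 - m := by
    rw [hσ, ← Real.rpow_mul h1m.le, one_div_mul_cancel (by positivity), Real.rpow_one]
  have hσ2 : σ ^ 2 = (1 - m) ^ δ := by
    rw [hσ, ← Real.rpow_natCast, ← Real.rpow_mul h1m.le, hδ]
    congr 1
    push_cast
    ring
  have h1α : 0 < 1 - α := by linarith
  have hw : LinearIndependent ℝ fun j => PL s t (v j) :=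
    Expanding.linearIndependent h1α fun c => hc.expanding hv c
  have hopt := opt_le hp hV hV₁m hσ0 (by rw [hσ1]; exact hmass) hw (Λ := ENNReal.ofReal
      ((L + 2 * ε + K * α) / (1 - α))) (fun c => by
    have h1 := hc.inner hq hk hε hv (by rw [← lam_eq]; exact hl) ht ha c
    rw [← lam_eq] at h1
    have h2 : qf V₁ (∑ j, c j • PL s t (v j)) = qf V (∑ j, c j • PL s t (v j)) := by
      unfold qf
      refine form_restrict ?_
      have h3 : ∑ j, c j • PL s t (v j) = PL s t (∑ j, c j • v j) := by simp [map_sum]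
      rw [h3]
      have h4 : (PL s t (∑ j, c j • v j) : Sp d → ℝ) =ᵐ[volume]
          fun x => eta s t x * (∑ j, c j • v j : Lp ℝ 2 (volume : Measure (Sp d))) x :=
        mulL_ae _ _ _ _
      filter_upwards [h4] with x hx
      by_cases hxt : x ∈ Om t
      · right
        have : t < rho x := hxt
        rw [hx, eta_eq_zero hst this.le, zero_mul]
      · left
        exact hV₁in x hxt
    rw [h2]
    exact h1)
  have hLe : lam V k = ENNReal.ofReal L := (ENNReal.ofReal_toReal hl.ne).symm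
  have hX : 0 ≤ L + 2 * ε + K * α := by positivity
  rw [hLe, hσ2, ← ENNReal.ofReal_mul (by positivity), ENNReal.ofReal_le_ofReal_iff (by positivity),
    mul_div_assoc', le_div_iff₀ h1α] at hopt
  have hbern := one_sub_rpow_le hδ0 hm0 hm
  set κ : ℝ := min δ 1 with hκ
  have hκ0 : 0 < κ := lt_min hδ0 one_pos
  have h3 : L * (1 - α) ≤ (1 - κ * m) * (L + 2 * ε + K * α) :=
    hopt.trans (mul_le_mul_of_nonneg_right hbern hX)
  have h4 : 0 ≤ κ * m * (2 * ε + K * α) := by positivity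
  nlinarith

/-- The eigenvalue is positive. -/
lemma lam_pos (hd : 1 ≤ d) (hp : 0 < p) {k : ℕ} (hk : 1 ≤ k) (hA : InA p V) : 0 < lam V k := by
  obtain ⟨C, hC, hkey⟩ := outer_norm (p := p) hd hp
  obtain ⟨h1, -⟩ := hkey V hA
  have hq := qform hA.meas
  by_contra h0
  push Not at h0
  rw [lam_eq] at h0
  have h2 : lamq (qf V) k < ENNReal.ofReal (1 / (2 * C)) :=
    lt_of_le_of_lt h0 (ENNReal.ofReal_pos.2 (by positivity))
  obtain ⟨W, hW, hb⟩ := exists_of_lamq_lt hq h2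
  have hne : W ≠ ⊥ := by
    intro h
    rw [h, finrank_bot] at hW
    omega
  obtain ⟨u, huW, hu0⟩ := (Submodule.ne_bot_iff _).1 hne
  have h3 := hb u huW
  rw [enorm_sq, ← ENNReal.ofReal_mul (by positivity)] at h3
  have h4 := (h1 u (lt_of_le_of_lt h3 ENNReal.ofReal_lt_top)).trans (mul_le_mul' le_rfl h3)
  rw [← ENNReal.ofReal_mul hC.le, ENNReal.ofReal_le_ofReal_iff (by positivity)] at h4
  have h5 : 0 < ‖u‖ ^ 2 := by have := norm_pos_iff.2 hu0; positivity
  have h6 : C * (1 / (2 * C) * ‖u‖ ^ 2) = 1 / 2 * ‖u‖ ^ 2 := by field_simp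
  rw [h6] at h4
  linarith

/-- The levels. -/
noncomputable def lev (s₀ : ℝ) (n : ℕ) : ℝ := s₀ * (2 - (1 / 2) ^ n)

lemma lev_pos {s₀ : ℝ} (hs : 1 ≤ s₀) (n : ℕ) : s₀ ≤ lev s₀ n := by
  unfold lev
  have : (1 / 2 : ℝ) ^ n ≤ 1 := pow_le_one₀ (by norm_num) (by norm_num)
  nlinarith

lemma lev_lt {s₀ : ℝ} (hs : 1 ≤ s₀) (n : ℕ) : lev s₀ n < lev s₀ (n + 1) := by
  unfold lev
  have : (0:ℝ) < (1 / 2) ^ n := by positivity
  rw [pow_succ]
  nlinarith

lemma lev_le {s₀ : ℝ} (hs : 1 ≤ s₀) (n : ℕ) : lev s₀ n ≤ 2 * s₀ := by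
  unfold lev
  have : (0:ℝ) < (1 / 2) ^ n := by positivity
  nlinarith

lemma lev_err {s₀ : ℝ} (hs : 1 ≤ s₀) (n : ℕ) :
    CK * lev s₀ (n + 1) / (lev s₀ (n + 1) - lev s₀ n) ^ 2 ≤ 8 * CK * 4 ^ n := by
  have hCK := CK_pos
  have h1 : lev s₀ (n + 1) - lev s₀ n = s₀ * (1 / 2) ^ (n + 1) := by
    unfold lev
    rw [pow_succ]
    ring
  have h2 := lev_le hs (n + 1)
  have hs0 : 0 < s₀ := by linarith
  have h3 : (0:ℝ) < (s₀ * (1 / 2) ^ (n + 1)) ^ 2 := by positivity
  rw [h1, div_le_iff₀ h3]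
  have h4 : 8 * CK * 4 ^ n * (s₀ * (1 / 2) ^ (n + 1)) ^ 2 = 2 * CK * s₀ ^ 2 := by
    rw [mul_pow, ← pow_mul, show (n + 1) * 2 = 2 * n + 2 by ring, pow_add, pow_mul]
    have : (4:ℝ) ^ n * (((1 / 2 : ℝ) ^ 2) ^ n) = 1 := by
      rw [← mul_pow]
      norm_num
    calc 8 * CK * 4 ^ n * (s₀ ^ 2 * (((1 / 2 : ℝ) ^ 2) ^ n * (1 / 2) ^ 2))
        = 2 * CK * s₀ ^ 2 * ((4:ℝ) ^ n * (((1 / 2 : ℝ) ^ 2) ^ n)) := by ring
      _ = 2 * CK * s₀ ^ 2 := by rw [this, mul_one]
  rw [h4]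
  nlinarith [mul_pos hCK hs0, mul_nonneg (mul_pos hCK hs0).le (sub_nonneg.2 hs)]

end

end Pool.Agent.R963.Opt
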