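import Pool.Agent.R963.Opt.Cut

/-!
# Dilations
-/

set_option autoImplicit false

open MeasureTheory Set Filter Topology
open scoped ENNReal

namespace Pool.Agent.R963.Opt

variable {d : ℕ}

lemma map_smul_eq {σ : ℝ} (hσ : 0 < σ) :
    Measure.map (fun x : Sp d => σ • x) volume = ENNReal.ofReal ((σ ^ d)⁻¹) • volume := by
  have h := Measure.map_addHaar_smul (volume : Measure (Sp d)) hσ.ne'
  rw [h, Module.finrank_fin_fun, abs_of_nonneg (by positivity)]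

lemma lint_comp {σ : ℝ} (hσ : 0 < σ) (f : Sp d → ℝ≥0∞) :
    ∫⁻ x, f (σ • x) = ENNReal.ofReal ((σ ^ d)⁻¹) * ∫⁻ x, f x := by
  let e : Sp d ≃ᵐ Sp d := (Homeomorph.smulOfNeZero σ hσ.ne').toMeasurableEquiv
  have h1 : ∫⁻ x, f (σ • x) = ∫⁻ y, f y ∂(Measure.map e volume) :=
    (lintegral_map_equiv f e).symm
  have h2 : Measure.map e volume = ENNReal.ofReal ((σ ^ d)⁻¹) • (volume : Measure (Sp d)) :=
    map_smul_eq hσ
  rw [h1, h2, lintegral_smul_measure, smul_eq_mul]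

lemma memLp_comp {σ : ℝ} (hσ : 0 < σ) {u : Sp d → ℝ} (hu : MemLp u 2 volume) :
    MemLp (fun x => u (σ • x)) 2 volume := by
  have h1 : MemLp u 2 (Measure.map (fun x : Sp d => σ • x) volume) := by
    rw [map_smul_eq hσ]
    exact hu.smul_measure ENNReal.ofReal_ne_top
  exact h1.comp_of_map (measurable_const_smul σ).aemeasurable

lemma ae_comp {σ : ℝ} (hσ : 0 < σ) {P : Sp d → Prop} (h : ∀ᵐ x, P x) : ∀ᵐ x, P (σ • x) := by
  have h1 : ∀ᵐ y ∂(Measure.map (fun x : Sp d => σ • x) volume), P y := by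
    rw [map_smul_eq hσ]
    exact Measure.ae_smul_measure h _
  exact ae_of_ae_map (measurable_const_smul σ).aemeasurable h1

lemma WeakGrad.dilate {σ : ℝ} (hσ : 0 < σ) {u : Sp d → ℝ} {g : Fin d → Sp d → ℝ}
    (h : WeakGrad u g) :
    WeakGrad (fun x => u (σ • x)) (fun k x => σ * g k (σ • x)) := by
  refine ⟨memLp_comp hσ h.memLp, fun k => (memLp_comp hσ (h.memLp_grad k)).const_mul σ,
    fun k φ hφ hc => ?_⟩
  have hσi : σ⁻¹ ≠ 0 := inv_ne_zero hσ.ne'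
  have hψ : ContDiff ℝ (⊤ : ℕ∞) (fun x => φ (σ⁻¹ • x)) := hφ.comp (contDiff_const_smul σ⁻¹)
  have hψc : HasCompactSupport (fun x => φ (σ⁻¹ • x)) :=
    hc.comp_homeomorph (Homeomorph.smulOfNeZero σ⁻¹ hσi)
  have h1 := h.weak k _ hψ hψc
  have hφ1 : Differentiable ℝ φ := hφ.differentiable (by simp)
  have h2 : ∀ y, fderiv ℝ (fun x => φ (σ⁻¹ • x)) y (Pi.single k 1) = σ⁻¹ * pd k φ (σ⁻¹ • y) := by
    intro y
    have e1 : HasFDerivAt (fun x : Sp d => σ⁻¹ • x) (σ⁻¹ • ContinuousLinearMap.id ℝ (Sp d)) y :=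
      (hasFDerivAt_id y).const_smul σ⁻¹
    have e2 := ((hφ1 (σ⁻¹ • y)).hasFDerivAt).comp y e1
    rw [show (fun x => φ (σ⁻¹ • x)) = φ ∘ fun x : Sp d => σ⁻¹ • x from rfl, e2.fderiv]
    simp [pd]
  simp only [h2] at h1
  have e1 : ∫ x, u (σ • x) * pd k φ x = ((σ ^ d)⁻¹) * ∫ y, u y * pd k φ (σ⁻¹ • y) := by
    have := Measure.integral_comp_smul (volume : Measure (Sp d))
      (fun y => u y * pd k φ (σ⁻¹ • y)) σ
    rw [Module.finrank_fin_fun, abs_of_nonneg (by positivity), smul_eq_mul] at this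
    rw [← this]
    refine integral_congr_ae (Eventually.of_forall fun x => ?_)
    simp only
    rw [smul_smul, inv_mul_cancel₀ hσ.ne', one_smul]
  have e2 : ∫ x, g k (σ • x) * φ x = ((σ ^ d)⁻¹) * ∫ y, g k y * φ (σ⁻¹ • y) := by
    have := Measure.integral_comp_smul (volume : Measure (Sp d))
      (fun y => g k y * φ (σ⁻¹ • y)) σ
    rw [Module.finrank_fin_fun, abs_of_nonneg (by positivity), smul_eq_mul] at this
    rw [← this]
    refine integral_congr_ae (Eventually.of_forall fun x => ?_)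
    simp only
    rw [smul_smul, inv_mul_cancel₀ hσ.ne', one_smul]
  have e3 : ∫ x, σ * g k (σ • x) * φ x = σ * ∫ x, g k (σ • x) * φ x := by
    rw [← integral_const_mul]
    refine integral_congr_ae (Eventually.of_forall fun x => ?_)
    simp only
    ring
  have e4 : ∫ y, u y * (σ⁻¹ * pd k φ (σ⁻¹ • y)) = σ⁻¹ * ∫ y, u y * pd k φ (σ⁻¹ • y) := by
    rw [← integral_const_mul]
    refine integral_congr_ae (Eventually.of_forall fun x => ?_)
    simp only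
    ring
  rw [e4] at h1
  change ∫ x, u (σ • x) * pd k φ x = _
  rw [e3, e1, e2]
  have h3 : ∫ y, u y * pd k φ (σ⁻¹ • y) = σ * -∫ x, g k x * φ (σ⁻¹ • x) := by
    rw [← h1, ← mul_assoc, mul_inv_cancel₀ hσ.ne', one_mul]
  rw [h3]
  ring

/-- The dilated potential. -/
noncomputable def dilV (σ : ℝ) (V : Sp d → ℝ≥0∞) (x : Sp d) : ℝ≥0∞ :=
  ENNReal.ofReal (σ ^ 2) * V (σ • x)

lemma energy_dilate {σ : ℝ} (hσ : 0 < σ) (V : Sp d → ℝ≥0∞) (u : Sp d → ℝ)
    (g : Fin d → Sp d → ℝ) :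
    energy (dilV σ V) (fun x => u (σ • x)) (fun k x => σ * g k (σ • x)) =
      ENNReal.ofReal (σ ^ 2) * (ENNReal.ofReal ((σ ^ d)⁻¹) * energy V u g) := by
  unfold energy dilV
  rw [mul_add, mul_add, ← lint_comp hσ, ← lint_comp hσ,
    ← lintegral_const_mul' _ _ ENNReal.ofReal_ne_top,
    ← lintegral_const_mul' _ _ ENNReal.ofReal_ne_top]
  congr 1
  · refine lintegral_congr fun x => ?_
    rw [Finset.mul_sum]
    refine Finset.sum_congr rfl fun k _ => ?_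
    rw [enorm_sq_real, enorm_sq_real, mul_pow, ENNReal.ofReal_mul (sq_nonneg _)]
  · refine lintegral_congr fun x => ?_
    rw [mul_assoc]

lemma form_dilate_le {σ : ℝ} (hσ : 0 < σ) (V : Sp d → ℝ≥0∞) {u : Sp d → ℝ} :
    form (dilV σ V) (fun x => u (σ • x)) ≤
      ENNReal.ofReal (σ ^ 2) * (ENNReal.ofReal ((σ ^ d)⁻¹) * form V u) := by
  by_cases h : form V u = ⊤
  · rw [h, ENNReal.mul_top (by simpa using (by positivity : 0 < σ ^ d)),
      ENNReal.mul_top (by simpa using (by positivity : σ ≠ 0))]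
    exact le_top
  · obtain ⟨g, hg, he⟩ := exists_grad (lt_top_iff_ne_top.2 h)
    rw [he, form_eq (hg.dilate hσ), energy_dilate hσ]

/-- The dilation of `L²`. -/
noncomputable def dilL {σ : ℝ} (hσ : 0 < σ) :
    Lp ℝ 2 (volume : Measure (Sp d)) →ₗ[ℝ] Lp ℝ 2 (volume : Measure (Sp d)) where
  toFun u := (memLp_comp hσ (Lp.memLp u)).toLp (fun x => u (σ • x))
  map_add' u v := by
    refine Lp.ext ?_
    filter_upwards [MemLp.coeFn_toLp (memLp_comp hσ (Lp.memLp (u + v))),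
      MemLp.coeFn_toLp (memLp_comp hσ (Lp.memLp u)),
      MemLp.coeFn_toLp (memLp_comp hσ (Lp.memLp v)),
      ae_comp hσ (Lp.coeFn_add u v),
      Lp.coeFn_add ((memLp_comp hσ (Lp.memLp u)).toLp (fun x => u (σ • x)))
        ((memLp_comp hσ (Lp.memLp v)).toLp (fun x => v (σ • x)))] with x h1 h2 h3 h4 h5
    rw [h1, h5, Pi.add_apply, h2, h3, h4, Pi.add_apply]
  map_smul' c u := by
    refine Lp.ext ?_
    filter_upwards [MemLp.coeFn_toLp (memLp_comp hσ (Lp.memLp (c • u))),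
      MemLp.coeFn_toLp (memLp_comp hσ (Lp.memLp u)),
      ae_comp hσ (Lp.coeFn_smul c u),
      Lp.coeFn_smul c ((memLp_comp hσ (Lp.memLp u)).toLp (fun x => u (σ • x)))]
      with x h1 h2 h3 h4
    rw [RingHom.id_apply, h1, h4, Pi.smul_apply, h2, h3, Pi.smul_apply]

lemma dilL_ae {σ : ℝ} (hσ : 0 < σ) (u : Lp ℝ 2 (volume : Measure (Sp d))) :
    (dilL hσ u : Sp d → ℝ) =ᵐ[volume] fun x => u (σ • x) :=
  MemLp.coeFn_toLp (memLp_comp hσ (Lp.memLp u))

lemma dilL_enorm {σ : ℝ} (hσ : 0 < σ) (u : Lp ℝ 2 (volume : Measure (Sp d))) :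
    ‖dilL hσ u‖ₑ ^ 2 = ENNReal.ofReal ((σ ^ d)⁻¹) * ‖u‖ₑ ^ 2 := by
  rw [lp_enorm_sq, lp_enorm_sq, ← lint_comp hσ]
  refine lintegral_congr_ae ?_
  filter_upwards [dilL_ae hσ u] with x hx
  rw [hx]

lemma dilL_ker {σ : ℝ} (hσ : 0 < σ) : LinearMap.ker (dilL (d := d) hσ) = ⊥ := by
  rw [LinearMap.ker_eq_bot']
  intro u hu
  have h1 := dilL_enorm hσ u
  rw [hu, enorm_zero, zero_pow (by norm_num)] at h1
  have h2 := mul_eq_zero.1 h1.symm
  rcases h2 with h2 | h2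
  · rw [ENNReal.ofReal_eq_zero] at h2
    have : 0 < (σ ^ d)⁻¹ := by positivity
    linarith
  · have h3 := pow_eq_zero_iff (two_ne_zero) |>.1 h2
    rwa [enorm_eq_zero] at h3

/-- The mass of the dilated potential. -/
lemma mass_dilate {σ : ℝ} (hσ : 0 < σ) {p : ℝ} (hp : 0 < p) (V : Sp d → ℝ≥0∞) :
    ∫⁻ x, dilV σ V x ^ (-p) =
      ENNReal.ofReal ((σ ^ (2 * p + d))⁻¹) * ∫⁻ x, V x ^ (-p) := by
  have h0 : (0:ℝ) < σ ^ 2 := by positivity
  have h1 : ∀ x : Sp d, dilV σ V x ^ (-p) =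
      ENNReal.ofReal ((σ ^ (2 * p))⁻¹) * V (σ • x) ^ (-p) := by
    intro x
    unfold dilV
    rw [ENNReal.rpow_neg, ENNReal.rpow_neg, ENNReal.mul_rpow_of_nonneg _ _ hp.le,
      ENNReal.mul_inv, ENNReal.ofReal_rpow_of_pos h0, ENNReal.ofReal_inv_of_pos (by positivity)]
    · congr 3
      rw [← Real.rpow_natCast, ← Real.rpow_mul hσ.le]
      norm_num
    · left
      rw [ENNReal.ofReal_rpow_of_pos h0]
      exact (ENNReal.ofReal_pos.2 (by positivity)).ne'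
    · left
      rw [ENNReal.ofReal_rpow_of_pos h0]
      exact ENNReal.ofReal_ne_top
  simp only [h1]
  rw [lintegral_const_mul' _ _ ENNReal.ofReal_ne_top,
    lint_comp hσ (fun x => V x ^ (-p)), ← mul_assoc, ← ENNReal.ofReal_mul (by positivity)]
  congr 2
  rw [Real.rpow_add hσ, Real.rpow_natCast]
  rw [mul_inv]

/-- **Comparison with a dilated competitor.** -/
theorem opt_le {p : ℝ} (hp : 0 < p) {k : ℕ} {V : Sp d → ℝ≥0∞} (hV : IsOptimal p k V)
    {V₁ : Sp d → ℝ≥0∞} (hV₁ : AEMeasurable V₁ volume) {σ : ℝ} (hσ : 0 < σ)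
    (hm : ∫⁻ x, V₁ x ^ (-p) ≤ ENNReal.ofReal (σ ^ (2 * p + d)))
    {w : Fin k → Lp ℝ 2 (volume : Measure (Sp d))} (hw : LinearIndependent ℝ w) {Λ : ℝ≥0∞}
    (h : ∀ c : Fin k → ℝ, qf V₁ (∑ j, c j • w j) ≤ Λ * ‖∑ j, c j • w j‖ₑ ^ 2) :
    lam V k ≤ ENNReal.ofReal (σ ^ 2) * Λ := by
  have hA : InA p (dilV σ V₁) := by
    refine ⟨?_, ?_⟩
    · unfold dilV
      refine AEMeasurable.const_mul ?_ _
      have h1 : AEMeasurable V₁ (Measure.map (fun x : Sp d => σ • x) volume) := by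
        rw [map_smul_eq hσ]
        exact hV₁.smul_measure _
      exact h1.comp_aemeasurable (measurable_const_smul σ).aemeasurable
    · rw [mass_dilate hσ hp]
      refine (mul_le_mul' le_rfl hm).trans ?_
      rw [← ENNReal.ofReal_mul (by positivity), inv_mul_cancel₀ (by positivity),
        ENNReal.ofReal_one]
  refine (hV.2 _ hA).trans ?_
  rw [lam_eq]
  refine lamq_le (fun j => dilL hσ (w j)) (hw.map' _ (dilL_ker hσ)) fun c => ?_
  have h1 : ∑ j, c j • dilL hσ (w j) = dilL hσ (∑ j, c j • w j) := by simp [map_sum]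
  rw [h1, dilL_enorm]
  set u := ∑ j, c j • w j with hu
  have h2 : qf (dilV σ V₁) (dilL hσ u) ≤
      ENNReal.ofReal (σ ^ 2) * (ENNReal.ofReal ((σ ^ d)⁻¹) * qf V₁ u) := by
    unfold qf
    rw [form_congr (dilL_ae hσ u)]
    exact form_dilate_le hσ V₁
  refine h2.trans ?_
  calc ENNReal.ofReal (σ ^ 2) * (ENNReal.ofReal ((σ ^ d)⁻¹) * qf V₁ u)
      ≤ ENNReal.ofReal (σ ^ 2) * (ENNReal.ofReal ((σ ^ d)⁻¹) * (Λ * ‖u‖ₑ ^ 2)) :=
        mul_le_mul' le_rfl (mul_le_mul' le_rfl (h c))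
    _ = _ := by ring

end Pool.Agent.R963.Opt
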