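import Pool.Agent.R963.Opt.Main

/-!
# Optimal potentials have bounded sets of finiteness: conclusion
-/

set_option autoImplicit false

open MeasureTheory Set Filter Topology
open scoped ENNReal

namespace Pool.Agent.R963.Opt

variable {d : ℕ} {p : ℝ} {V : Sp d → ℝ≥0∞}

theorem bounded (hd : 1 ≤ d) (hp : 0 < p) {k : ℕ} (hk : 1 ≤ k) (hV : IsOptimal p k V) :
    ∃ s : ℝ, ∀ᵐ x, s < rho x → V x = ⊤ := by
  have hd0 : (0:ℝ) < d := by exact_mod_cast hd
  have hA := hV.1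
  have hq := qform hA.meas
  have hCK := CK_pos
  have hl : lam V k < ⊤ := by
    obtain ⟨V', hA', hV'⟩ := exists_finite hd hp k
    exact lt_of_le_of_lt (hV.2 V' hA') hV'
  have hlpos := lam_pos hd hp hk hA
  set L : ℝ := (lam V k).toReal with hL
  have hL0 : 0 < L := ENNReal.toReal_pos hlpos.ne' hl.ne
  have htr : trq (qf V) k < ⊤ := trq_lt_top hq (by rw [← lam_eq]; exact hl) hk
  set S : ℝ := (trq (qf V) k).toReal with hS
  have hS0 : 0 ≤ S := ENNReal.toReal_nonneg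
  have hSe : trq (qf V) k = ENNReal.ofReal S := (ENNReal.ofReal_toReal htr.ne).symm
  obtain ⟨C, hC, hkey⟩ := outer_norm (p := p) hd hp
  obtain ⟨hkey1, hkey2⟩ := hkey V hA
  set δ : ℝ := 2 / (2 * p + d) with hδ
  have hδ0 : 0 < δ := by positivity
  set κ : ℝ := min δ 1 with hκ
  have hκ0 : 0 < κ := lt_min hδ0 one_pos
  set B₀ : ℝ := C * (S + 1) with hB₀
  have hB₀0 : 0 < B₀ := by positivity
  -- the near-minimal frames
  have hex : ∀ n : ℕ, ∃ v : Fin k → Lp ℝ 2 (volume : Measure (Sp d)), Expanding v ∧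
      ∑ j, qf V (v j) ≤ trq (qf V) k + ENNReal.ofReal (1 / ((n:ℝ) + 1)) := by
    intro n
    have h1 : trq (qf V) k < trq (qf V) k + ENNReal.ofReal (1 / ((n:ℝ) + 1)) :=
      ENNReal.lt_add_right htr.ne (ENNReal.ofReal_pos.2 (by positivity)).ne'
    conv at h1 => lhs; unfold trq
    simp only [iInf_lt_iff] at h1
    obtain ⟨v, hv, h2⟩ := h1
    exact ⟨v, hv, h2.le⟩
  choose v hv hvt using hex
  have hε0 : ∀ n : ℕ, (0:ℝ) < 1 / ((n:ℝ) + 1) := fun n => by positivity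
  have hε1 : ∀ n : ℕ, (1:ℝ) / ((n:ℝ) + 1) ≤ 1 := fun n => by
    rw [div_le_one (by positivity)]
    have : (0:ℝ) ≤ n := Nat.cast_nonneg n
    linarith
  have hvS : ∀ n, ∑ j, qf V (v n j) ≤ ENNReal.ofReal (S + 1) := by
    intro n
    refine (hvt n).trans ?_
    rw [hSe, ← ENNReal.ofReal_add hS0 (hε0 n).le]
    exact ENNReal.ofReal_le_ofReal (by linarith [hε1 n])
  have hvB : ∀ n, ∑ j, ‖v n j‖ ^ 2 ≤ B₀ := by
    intro n
    have h1 : ENNReal.ofReal (∑ j, ‖v n j‖ ^ 2) ≤ ENNReal.ofReal B₀ := by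
      rw [ENNReal.ofReal_sum_of_nonneg fun _ _ => sq_nonneg _, hB₀, ENNReal.ofReal_mul hC.le]
      refine (Finset.sum_le_sum fun j _ => hkey1 (v n j) ?_).trans ?_
      · exact (ENNReal.sum_lt_top.1 (lt_of_le_of_lt (hvS n) ENNReal.ofReal_lt_top)) j
          (Finset.mem_univ j)
      · rw [← Finset.mul_sum]
        exact mul_le_mul' le_rfl (hvS n)
    rwa [ENNReal.ofReal_le_ofReal_iff hB₀0.le] at h1
  -- the initial bound
  set C₂ : ℝ := C * (S + 1 + 2 * CK * B₀) with hC₂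
  have hC₂0 : 0 < C₂ := by positivity
  have hinit : ∀ (n : ℕ) (s : ℝ), 1 ≤ s → aO (v n) (2 * s) ≤ C₂ * mO p V s ^ δ := by
    intro n s hs
    have hst : s < 2 * s := by linarith
    have hs0 : 0 ≤ s := by linarith
    have hc := cutData hA.meas hs0 hst
    refine hkey2 k (v n) s (2 * s) _ hs0 hst (by positivity) ?_
    have hKle : CK * (2 * s) / (2 * s - s) ^ 2 ≤ 2 * CK := by
      rw [show 2 * s - s = s by ring, div_le_iff₀ (by positivity)]
      nlinarith [mul_nonneg hCK.le (mul_nonneg hs0 (sub_nonneg.2 hs))]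
    have hY : ∀ j, ‖YL s (v n j)‖ ^ 2 ≤ ‖v n j‖ ^ 2 := by
      intro j
      have h1 := norm_YL_le (show s / 2 < s by linarith) (v n j)
      have h2 := (cutData hA.meas (show 0 ≤ s / 2 by linarith)
        (show s / 2 < s by linarith)).norm_eq (v n j)
      have h3 : 0 ≤ ‖PL (s / 2) s (v n j)‖ ^ 2 := sq_nonneg _
      linarith
    calc ∑ j, qf V (ZL s (2 * s) (v n j))
        ≤ ∑ j, (qf V (v n j) + ENNReal.ofReal (2 * CK * ‖v n j‖ ^ 2)) := by
          refine Finset.sum_le_sum fun j _ => ?_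
          refine (le_add_self.trans (hc.form_le (v n j))).trans (add_le_add le_rfl ?_)
          apply ENNReal.ofReal_le_ofReal
          exact mul_le_mul hKle (hY j) (sq_nonneg _) (by positivity)
      _ ≤ ENNReal.ofReal (S + 1) + ENNReal.ofReal (2 * CK * B₀) := by
          rw [Finset.sum_add_distrib]
          refine add_le_add (hvS n) ?_
          rw [← ENNReal.ofReal_sum_of_nonneg fun _ _ => by positivity, ← Finset.mul_sum]
          exact ENNReal.ofReal_le_ofReal (mul_le_mul_of_nonneg_left (hvB n) (by positivity))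
      _ = ENNReal.ofReal (S + 1 + 2 * CK * B₀) := by
          rw [← ENNReal.ofReal_add (by positivity) (by positivity)]
  -- constants of the iteration
  set P : ℝ := C * (8 * CK + S) with hP
  have hP0 : 0 < P := by positivity
  set Q : ℝ := (L + 8 * CK) / (κ * L) with hQ
  have hQ0 : 0 < Q := by positivity
  obtain ⟨θ, hθ, hiter⟩ := iter hP0 hQ0 hδ0
  have hμ : 0 < min θ (1 / 2) := lt_min hθ (by norm_num)
  obtain ⟨N, hN1, hN2, hN3⟩ : ∃ N : ℕ, 1 ≤ N ∧ C₂ * mO p V N ^ δ ≤ min θ (1 / 2) ∧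
      mO p V N < 1 := by
    have h1 := mO_tendsto hA
    have h2 : Tendsto (fun n : ℕ => C₂ * mO p V n ^ δ) atTop (𝓝 0) := by
      have h3 := (h1.rpow_const (Or.inr hδ0.le) (p := δ)).const_mul C₂
      rwa [Real.zero_rpow hδ0.ne', mul_zero] at h3
    have h3 := (eventually_ge_atTop 1).and ((h2.eventually (ge_mem_nhds hμ)).and
      (h1.eventually (gt_mem_nhds one_pos)))
    obtain ⟨N, h4, h5, h6⟩ := h3.exists
    exact ⟨N, h4, h5, h6⟩
  have hN1' : (1:ℝ) ≤ N := by exact_mod_cast hN1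
  set s₀ : ℝ := 2 * (N:ℝ) with hs₀
  have hs₀1 : 1 ≤ s₀ := by linarith
  have ha0 : ∀ n, aO (v n) s₀ ≤ min θ (1 / 2) := fun n => (hinit n N hN1').trans hN2
  have hlev0 : lev s₀ 0 = s₀ := by unfold lev; ring
  have halev : ∀ n i, aO (v n) (lev s₀ i) ≤ min θ (1 / 2) := by
    intro n i
    induction i with
    | zero => rw [hlev0]; exact ha0 n
    | succ i ih =>
      exact (aO_anti (v n) (by linarith [lev_pos hs₀1 i]) (lev_lt hs₀1 i)).trans ih
  have hmlev : ∀ i, mO p V (lev s₀ i) < 1 := by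
    intro i
    refine lt_of_le_of_lt (mO_anti hA ?_) hN3
    have := lev_pos hs₀1 i
    linarith
  -- limits along an ultrafilter
  have hF : (hyperfilter ℕ : Filter ℕ) ≤ atTop := Nat.hyperfilter_le_atTop
  have hlim : ∀ i, ∃ a : ℝ, a ∈ Icc (0:ℝ) (min θ (1 / 2)) ∧
      Tendsto (fun n => aO (v n) (lev s₀ i)) (hyperfilter ℕ) (𝓝 a) := by
    intro i
    have h1 : ∀ n, aO (v n) (lev s₀ i) ∈ Icc (0:ℝ) (min θ (1 / 2)) := fun n =>
      ⟨aO_nonneg _ _, halev n i⟩
    obtain ⟨a, ha, h2⟩ := (isCompact_Icc (a := (0:ℝ)) (b := min θ (1 / 2))).ultrafilter_le_nhds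
      ((hyperfilter ℕ).map fun n => aO (v n) (lev s₀ i)) (by
        rw [le_principal_iff]
        exact Filter.mem_map.2 (Filter.univ_mem' h1))
    exact ⟨a, ha, h2⟩
  choose A hAI hAlim using hlim
  have hεlim : Tendsto (fun n : ℕ => 1 / ((n:ℝ) + 1)) (hyperfilter ℕ) (𝓝 0) :=
    tendsto_one_div_add_atTop_nhds_zero_nat.mono_left hF
  have hA1 : ∀ i, A (i + 1) ≤ A i := by
    intro i
    exact le_of_tendsto_of_tendsto' (hAlim (i + 1)) (hAlim i) fun n =>
      aO_anti (v n) (by linarith [lev_pos hs₀1 i]) (lev_lt hs₀1 i)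
  have hs0i : ∀ i, 0 ≤ lev s₀ i := fun i => by linarith [lev_pos hs₀1 i]
  have h4n : ∀ i : ℕ, (1:ℝ) ≤ 4 ^ i := fun i => one_le_pow₀ (by norm_num)
  have hlt1 : ∀ n i, aO (v n) (lev s₀ i) < 1 := fun n i => by
    have h1 := halev n i
    have h2 : min θ (1 / 2) ≤ 1 / 2 := min_le_right _ _
    linarith
  have hA2 : ∀ i, A (i + 1) ≤ P * 4 ^ i * mO p V (lev s₀ i) ^ δ * A i := by
    intro i
    set K : ℝ := CK * lev s₀ (i + 1) / (lev s₀ (i + 1) - lev s₀ i) ^ 2 with hK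
    have hc := cutData hA.meas (hs0i i) (lev_lt hs₀1 i)
    have hK0 : 0 ≤ K := hc.K_nonneg
    have hm0 := mO_nonneg p V (lev s₀ i)
    have h1 : ∀ n, aO (v n) (lev s₀ (i + 1)) ≤
        C * (1 / ((n:ℝ) + 1) + (K + S) * aO (v n) (lev s₀ i)) * mO p V (lev s₀ i) ^ δ := by
      intro n
      have ha' := aO_nonneg (v n) (lev s₀ i)
      refine hkey2 k (v n) _ _ _ (hs0i i) (lev_lt hs₀1 i) (by positivity) ?_
      exact hc.outer hq (hε0 n).le (hv n) htr (hvt n) (hlt1 n i)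
    have h2 : A (i + 1) ≤ C * (0 + (K + S) * A i) * mO p V (lev s₀ i) ^ δ := by
      refine le_of_tendsto_of_tendsto' (hAlim (i + 1)) ?_ h1
      exact ((hεlim.add ((hAlim i).const_mul (K + S))).const_mul C).mul_const _
    refine h2.trans ?_
    have hKle : K ≤ 8 * CK * 4 ^ i := lev_err hs₀1 i
    have hAi := (hAI i).1
    have h3 : K + S ≤ (8 * CK + S) * 4 ^ i := by nlinarith [h4n i]
    calc C * (0 + (K + S) * A i) * mO p V (lev s₀ i) ^ δ
        = (C * mO p V (lev s₀ i) ^ δ * A i) * (K + S) := by ring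
      _ ≤ (C * mO p V (lev s₀ i) ^ δ * A i) * ((8 * CK + S) * 4 ^ i) :=
          mul_le_mul_of_nonneg_left h3 (by positivity)
      _ = P * 4 ^ i * mO p V (lev s₀ i) ^ δ * A i := by rw [hP]; ring
  have hM2 : ∀ i, mO p V (lev s₀ (i + 1)) ≤ Q * 4 ^ i * A i := by
    intro i
    set K : ℝ := CK * lev s₀ (i + 1) / (lev s₀ (i + 1) - lev s₀ i) ^ 2 with hK
    have h1 : ∀ n : ℕ, κ * L * mO p V (lev s₀ (i + 1)) ≤
        L * aO (v n) (lev s₀ i) + 2 * (1 / ((n:ℝ) + 1)) + K * aO (v n) (lev s₀ i) := fun n =>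
      mass_est hd hp hk hV hl (hε0 n) (hv n) (hvt n) (hs0i i) (lev_lt hs₀1 i) (hlt1 n i)
        (hmlev (i + 1))
    have h2 : κ * L * mO p V (lev s₀ (i + 1)) ≤ L * A i + 2 * 0 + K * A i := by
      refine ge_of_tendsto' (x := (hyperfilter ℕ : Filter ℕ)) ?_ h1
      exact ((((hAlim i).const_mul L).add (hεlim.const_mul 2)).add ((hAlim i).const_mul K))
    have hKle : K ≤ 8 * CK * 4 ^ i := lev_err hs₀1 i
    have hAi := (hAI i).1
    have h3 : L + K ≤ (L + 8 * CK) * 4 ^ i := by nlinarith [h4n i]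
    have hκL : 0 < κ * L := by positivity
    have h4 : κ * L * mO p V (lev s₀ (i + 1)) ≤ ((L + 8 * CK) * 4 ^ i) * A i := by
      refine h2.trans ?_
      calc L * A i + 2 * 0 + K * A i = (L + K) * A i := by ring
        _ ≤ _ := mul_le_mul_of_nonneg_right h3 hAi
    calc mO p V (lev s₀ (i + 1)) = κ * L * mO p V (lev s₀ (i + 1)) / (κ * L) := by
          field_simp
      _ ≤ ((L + 8 * CK) * 4 ^ i) * A i / (κ * L) := div_le_div_of_nonneg_right h4 hκL.le
      _ = Q * 4 ^ i * A i := by rw [hQ]; ring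
  have hfinal := hiter A (fun i => mO p V (lev s₀ i)) (fun i => (hAI i).1)
    (fun i => mO_nonneg _ _ _) hA1 hA2 hM2 ((hAI 0).2.trans (min_le_left _ _))
  have hzero : mO p V (2 * s₀) ≤ 0 :=
    ge_of_tendsto' hfinal fun i => mO_anti hA (lev_le hs₀1 i)
  exact ⟨2 * s₀, ae_top hp hA (le_antisymm hzero (mO_nonneg _ _ _))⟩

end Pool.Agent.R963.Opt
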